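import Mathlib
import Pool.Agent.VM.Defs
import Pool.Agent.Helper69_Weyl.Moments
import Pool.Agent.VM5.Stmts

/-!
# Weyl's exponent for quartic sums (paper: team-store/K4.md, note 3652): definitions

`ee x = exp (2 π i x)`, `W 4 N t ξ = ∑ n ∈ Icc 1 N, ee (t n ^ 4 + ξ n)` (`Helper69_Weyl`),
`Nr x δ`: `x` is within `δ` of an integer (`VM.Defs`).

Parameters: all sizes are powers of one natural number `Z`: `Z ^ 64000 ≤ N ≤ 2 Z ^ 64000`,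
`L = Z ^ 1000`, `E = Z ^ 80`, `D = Z ^ 84`.
-/

set_option autoImplicit false

namespace Pool.Agent.K4W

open Pool.Agent.Helper69_Weyl (ee W)
open Pool.Agent.VM (Nr)

/-- the Gaussian weight `exp (- π x ^ 2 / N ^ 2)` -/
noncomputable def ga (N : ℕ) (x : ℝ) : ℝ := Real.exp (-(Real.pi * x ^ 2 / (N : ℝ) ^ 2))

/-- the weighted terms -/
noncomputable def f (N : ℕ) (t ξ : ℝ) (x : ℤ) : ℂ :=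
  (ga N (x : ℝ) : ℂ) * ee (t * (x : ℝ) ^ 4 + ξ * (x : ℝ))

/-- the theta sum `∑ s, exp (- 4 π s ^ 2 / N ^ 2) ee (x s ^ 2)` -/
noncomputable def th (N : ℕ) (x : ℝ) : ℂ :=
  ∑' s : ℤ, (ga N (2 * (s : ℝ)) : ℂ) * ee (x * (s : ℝ) ^ 2)

/-- `∑_{h₁ ∈ a ℤ, h₂ ∈ b ℤ} ∑ x, f(x) conj f(x + h₁) conj f(x + h₂) f(x + h₁ + h₂)` for a function
`f`, written as a sum of squares over `h₂ = b h` and the residue classes modulo `a` -/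
noncomputable def U (f : ℤ → ℂ) (a b : ℕ) : ℝ :=
  ∑' h : ℤ, ∑ c ∈ Finset.range a,
    ‖∑' y : ℤ, f ((c : ℤ) + (a : ℤ) * y) *
      (starRingEnd ℂ) (f ((c : ℤ) + (a : ℤ) * y + (b : ℤ) * h))‖ ^ 2

/-- the family of functions of `μ` -/
noncomputable def ps (α β l : ℝ) (μ : ℕ) : ℂ :=
  ee (α * (μ : ℝ) ^ 3 + β * (μ : ℝ)) * (Real.exp (-(l * (μ : ℝ) ^ 2)) : ℂ)

/-- the Gauss sum `∑ c modulo r, e ((a c ^ 2 + m c) / r)` -/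
noncomputable def GS (r : ℕ) (a m : ℤ) : ℂ :=
  ∑ c ∈ Finset.range r, ee (((a * (c : ℤ) ^ 2 + m * (c : ℤ) : ℤ) : ℝ) / (r : ℝ))

/-- `A = 4 / N ^ 2 - 2 i γ` -/
noncomputable def Ag (N : ℕ) (γ : ℝ) : ℂ := ((4 / (N : ℝ) ^ 2 : ℝ) : ℂ) - 2 * Complex.I * (γ : ℂ)

/-- `w = (4 / N ^ 2 + γ ^ 2 N ^ 2) ^ (1/2)` -/
noncomputable def wg (N : ℕ) (γ : ℝ) : ℝ := Real.sqrt (4 / (N : ℝ) ^ 2 + γ ^ 2 * (N : ℝ) ^ 2)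

/-- the coefficients after Poisson's formula: `r ^ (-1/2) A ^ (-1/2) exp (- π m ^ 2 / (r ^ 2 A))` -/
noncomputable def cf (N r : ℕ) (γ : ℝ) (m : ℤ) : ℂ :=
  (((r : ℝ) ^ (-(1 / 2) : ℝ) : ℝ) : ℂ) * (Ag N γ) ^ (-(1 / 2) : ℂ) *
    Complex.exp (-((Real.pi : ℂ) * (m : ℂ) ^ 2 / ((r : ℂ) ^ 2 * Ag N γ)))

/-- `e (v / r)` for `v` in `ZMod r` -/
noncomputable def er (r : ℕ) (v : ZMod r) : ℂ := ee ((v.val : ℝ) / (r : ℝ))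

/-- the box of the pairs `(h, k)`, `L = Z ^ 1000` -/
noncomputable def Bx (Z N : ℕ) : Finset (ℤ × ℤ) :=
  ((Finset.Icc (-((2 * Z * N : ℕ) : ℤ)) ((2 * Z * N : ℕ) : ℤ)) ×ˢ
    (Finset.Icc (-((Z * N : ℕ) : ℤ)) ((Z * N : ℕ) : ℤ))).filter
    (fun p => p.1 ≠ 0 ∧ p.2 ≠ 0 ∧ |p.1| * (Z : ℤ) ^ 1000 ≤ 2 * (Z : ℤ) * (N : ℤ))

/-- the set of the nonzero integers `H`, `|H| ≤ X` -/
noncomputable def Hs (X : ℕ) : Finset ℤ := (Finset.Icc (-(X : ℤ)) (X : ℤ)).filter (fun H => H ≠ 0)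

/-- `X = 8 Z ^ 127002`, so that `2 Z ^ 2 N ^ 2 ≤ X L ≤ 8 Z ^ 2 N ^ 2` -/
def Xz (Z : ℕ) : ℕ := 8 * Z ^ 127002

/-- the hypotheses on `Z, N, Q, a, t` in part B -/
def ParB (Z N Q : ℕ) (a : ℤ) (t : ℝ) : Prop :=
  Z ^ 64000 ≤ N ∧ N ≤ 2 * Z ^ 64000 ∧ Z ^ 111900 ≤ Q ∧ Q ≤ Z ^ 144200 ∧
    Int.gcd a (Q : ℤ) = 1 ∧ |t - (a : ℝ) / (Q : ℝ)| ≤ 1 / (Q : ℝ) ^ 2

/-- the primes `μ`: `S` is a set of primes in `(L, 2 L]`, `L = Z ^ 1000`, with at least `Z ^ 999`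
elements -/
def ParS (Z : ℕ) (S : Finset ℕ) : Prop :=
  Z ^ 999 ≤ S.card ∧ ∀ μ ∈ S, μ.Prime ∧ Z ^ 1000 < μ ∧ μ ≤ 2 * Z ^ 1000

/-- the conditions on `r, b, β` outside of the cusps -/
def ParR (Z N r : ℕ) (b : ℤ) (β : ℝ) : Prop :=
  Odd r ∧ N < r * Z ^ 84 ∧ r ≤ 2 * N * Z ^ 84 ∧ Int.gcd b (r : ℤ) = 1 ∧
    (r : ℝ) * |β| ≤ 3 * (Z : ℝ) ^ 84 / (N : ℝ) ∧
    (Z : ℝ) ^ 166 / ((Z : ℝ) ^ 1000 * (N : ℝ)) ≤ (r : ℝ) * |β|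

/-- PART A (statement): rational numbers with a small denominator `u` -/
def PartA : Prop :=
  ∀ ε : ℝ, 0 < ε → ∃ C : ℝ, 0 < C ∧ ∀ (N u : ℕ) (b : ℤ) (t ξ P : ℝ), 1 ≤ N → 1 ≤ u → 0 < P →
    Int.gcd b (u : ℤ) = 1 → |t - (b : ℝ) / (u : ℝ)| ≤ 1 / ((u : ℝ) * P) →
      ‖W 4 N t ξ‖ ≤ C * ((N : ℝ) * (u : ℝ)) ^ ε *
        ((N : ℝ) * (u : ℝ) ^ (-(1 / 4) : ℝ) + (u : ℝ) ^ ((1 / 2) : ℝ) +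
          (N : ℝ) ^ 2 * P ^ (-(1 / 2) : ℝ))

/-- PART B (statement): denominators near `N ^ 2` -/
def PartB : Prop :=
  ∃ Z₀ : ℕ, ∀ Z : ℕ, Z₀ ≤ Z → ∀ (N Q : ℕ) (a : ℤ) (t ξ : ℝ),
    Z ^ 64000 ≤ N → N ≤ 2 * Z ^ 64000 → Z ^ 111900 ≤ Q → Q ≤ Z ^ 144200 →
    Int.gcd a (Q : ℤ) = 1 → |t - (a : ℝ) / (Q : ℝ)| ≤ 1 / (Q : ℝ) ^ 2 →
      ‖W 4 N t ξ‖ ^ 4 * (Z : ℝ) ^ 66 ≤ (Z : ℝ) ^ 224000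

/-- the final theorem: the hypothesis `H_4(1 / 8 + 1 / 4000)` -/
def FinStmt : Prop :=
  ∀ ε : ℝ, 0 < ε → ∃ C : ℝ, 0 < C ∧ ∀ (N q : ℕ) (a : ℤ) (t ξ : ℝ), 1 ≤ q → q ≤ N →
    Int.gcd a (q : ℤ) = 1 → |t - (a : ℝ) / (q : ℝ)| ≤ 1 / (q : ℝ) ^ 2 →
      ‖W 4 N t ξ‖ ≤ C * (N : ℝ) ^ (1 + ε) *
        ((1 / (q : ℝ)) ^ ((1 / 4) : ℝ) + (1 / (N : ℝ)) ^ ((1 / 8 + 1 / 4000) : ℝ))

end Pool.Agent.K4W
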