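import Mathlib
import Pool.Agent.VM.StmtsH
import Pool.Agent.VM.Ffl
import Pool.Agent.Helper7_VM.Stmts
import Pool.Agent.K4W.Defs

/-!
# Squad K4W (MP_3b0be2_nt), block A: quartic sums near rational numbers

Result of the block: `AmjStmt`, for all coprime `b`, `u`, all `t`, `ξ` and `T = N ^ 4 |t - b / u|`
`|W 4 N t ξ| ≤ C (N + u) ^ ε (N (u (1 + T)) ^ (-1/4) + (u (1 + T)) ^ (1/2))`,
and `AcsStmt` (case A of the main theorem).  `Sc k u b m` is the complete sum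
`∑ x < u, e((b x ^ k + m x) / u)` (`Pool.Agent.VM.StmtsH`), `W k N t ξ` the Weyl sum.

Landed rows of the squad VM may be used directly (import the file of the row; the statements are in
`Pool.Agent.VM.StmtsH`): `Pool.Agent.VM.H17.kul : KulStmt` (Helper17_HUA/Kul), `H14.cpl : CplStmt`
(Helper14_HUA/Cpl), `H85.spl : SplStmt` (Helper85_HUA/Spl), `H85.rtp : RtpStmt` (Helper85_HUA/Rtp),
`H37.stp : StpStmt` (Helper37_HUA/Stp), `H94.ppb`, `H17.ppc`, `H20.mor`, `H29.nwt`, `H24.ppw`,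
`H85.hua`, `H20.hmt : HmtStmt` (Helper20_HUA/Hmt), `H2.ome : OmeStmt` (Helper2_HUA/Ome),
`H94.vfa k hk kul : VfaStmt k` (Helper94_HUA/Vfa); see `Pool/Agent/VM/Major.lean` for the imports.
-/

set_option autoImplicit false

namespace Pool.Agent.K4W

open Pool.Agent.Helper69_Weyl (ee W)
open Pool.Agent.VM (Sc)

/-! ### complete sums -/

/-- AGS: quadratic Gauss sums modulo an odd prime, with a linear term.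

Proof.  Everything depends only on the residue classes modulo `p`.
`|S| ^ 2 = ∑ z, w, ee ((a (z ^ 2 - w ^ 2) + c (z - w)) / p)`; put `z = w + h`, `h` modulo `p`:
`= ∑ h, ee ((a h ^ 2 + c h) / p) ∑ w, ee (2 a h w / p)`, the inner sum is `p` if `p ∣ 2 a h`, i.e.
`h = 0`, and `0` otherwise (geometric sum). -/
def AgsStmt : Prop :=
  ∀ (p : ℕ) (a c : ℤ), p.Prime → p ≠ 2 → ¬ (p : ℤ) ∣ a →
    ‖∑ z ∈ Finset.range p, ee (((a * (z : ℤ) ^ 2 + c * (z : ℤ) : ℤ) : ℝ) / (p : ℝ))‖ ^ 2 = (p : ℝ)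

/-- APO (uses AGS): odd prime powers, `p ∤ m`.

Proof.  `f(x) = b x ^ 4 + m x`, `e = 2 r + 1`.  `VM.StpStmt` (landed `H37.stp`) with `k = 4` and this
`r` (`2 r ≤ e`, `e - r = r + 1`): `Sc 4 (p ^ e) b m = p ^ r ∑_y ee (f(y) / p ^ e)` over
`y < p ^ (r+1)` with `p ^ r ∣ 4 b y ^ 3 + m = f'(y)`.  Write `y = y₀ + p ^ r z`, `y₀ < p ^ r`, `z < p`;
the condition is `p ^ r ∣ f'(y₀) = p ^ r j`, and
`f(y) = f(y₀) + p ^ r z f'(y₀) + 6 b y₀ ^ 2 z ^ 2 p ^ (2r) + 4 b y₀ z ^ 3 p ^ (3r) + b z ^ 4 p ^ (4r)`,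
where `3 r ≥ 2 r + 1`.  So the sum over `z` is
`ee (f(y₀) / p ^ e) ∑ z < p, ee ((j z + 6 b y₀ ^ 2 z ^ 2) / p)`, `p ∤ y₀` (as `p ∤ m`, `r ≥ 1`) and
`p ≥ 5`, so by AGS its modulus is `√p`.  The number of `y₀ < p ^ r` with `p ^ r ∣ 4 b y₀ ^ 3 + m` is
at most `27` (`VM.RtpStmt`, landed `H85.rtp`, `n = 3`, `c` with `4 b c + m ≡ 0` modulo `p ^ r`). -/
def ApoStmt : Prop :=
  ∀ (p r : ℕ) (b m : ℤ), p.Prime → 5 ≤ p → 1 ≤ r → ¬ (p : ℤ) ∣ b → ¬ (p : ℤ) ∣ m →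
    ‖Sc 4 (p ^ (2 * r + 1)) b m‖ ^ 2 ≤ 729 * (p : ℝ) ^ (2 * r + 1)

/-- AWE: Weil's bound (output of the block W, degree 4) in terms of `Sc`. -/
def AweStmt : Prop :=
  ∀ (p : ℕ) (b m : ℤ), p.Prime → 5 ≤ p → ¬ (p : ℤ) ∣ b → ‖Sc 4 p b m‖ ≤ 3 * √(p : ℝ)

/-- APP (uses AWE, APO): all prime powers.

Proof.  `C = 1000`, strong induction on `e` for all `m`.  `e = 0`: `Sc = 1`.  `e = 1`: AWE for
`p ≥ 5`, trivial (`≤ p ≤ 3`) for `p = 2, 3`.  Now `e ≥ 2`.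
`p ≥ 3` (so `τ = 0` in `VM.PpbStmt 4`, `VM.PpcStmt 4`, landed `H94.ppb 4 .. H37.stp H85.rtp`,
`H17.ppc 4 .. H37.stp`).  (a) `p ∤ m`, `e` even: PPB `≤ 4 ^ 4 p ^ (e/2)`.  (b) `p ∤ m`, `e` odd,
`p ≥ 5`: APO `≤ 27 √(p ^ e)`; `p = 3`: PPB `≤ 256 · 3 ^ ((e+1)/2) ≤ 256 √3 √(3 ^ e)`.
(c) `p ∣ m`, `e ∈ {2, 3}`: PPC (last part) `≤ p ^ (e-1) ≤ √(p ^ e) p` and `p ∣ gcd(m, p ^ e)`.
(d) `p ∣ m`, `p ^ 3 ∤ m`, `e ≥ 4`: PPC gives `0`.  (e) `m = p ^ 3 m'`, `e ≥ 4`: PPC gives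
`p ^ 3 Sc 4 (p ^ (e-4)) b m'`, at most `p ^ 3 C √(p ^ (e-4)) gcd(m', p ^ (e-4))
= C p √(p ^ e) gcd(m', p ^ (e-4))`, and `p ^ 3 gcd(m', p ^ (e-4)) ≤ gcd(p ^ 3 m', p ^ e)`
(it divides it).
`p = 2` (`τ = 2`): `e ≤ 5`: trivial, `|Sc| ≤ 2 ^ e ≤ 32`.  `e ≥ 6`: `4 ∤ m`: `0`; `4 ∣ m`, `8 ∤ m`: PPB
`≤ 256 · 2 ^ ((e+1)/2) ≤ 256 √2 √(2 ^ e)`; `8 ∣ m`: as (e). -/
def AppStmt : Prop :=
  ∃ C : ℝ, 1 ≤ C ∧ ∀ (p e : ℕ) (b m : ℤ), p.Prime → ¬ (p : ℤ) ∣ b →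
    ‖Sc 4 (p ^ e) b m‖ ≤ C * √((p : ℝ) ^ e) * (Int.gcd m ((p ^ e : ℕ) : ℤ) : ℝ)

/-- ASC (uses APP): all moduli.

Proof.  By induction over coprime prime powers (`Nat.recOnPosPrimePosCoprime`, or strong induction
splitting off `p ^ v_p(u)`; compare the proof of `VM.HuaStmt`, `Helper85_HUA/Hua.lean`):
`|Sc 4 u b m| ≤ C ^ (number of primes dividing u) √u gcd(m, u)`, using `VM.HmtStmt` (landed `H20.hmt`):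
`Sc 4 (u₁ u₂) b m = Sc 4 u₁ (b u₂ ^ 3) m * Sc 4 u₂ (b u₁ ^ 3) m` for coprime `u₁`, `u₂`, and
`gcd(m, u₁ u₂) = gcd(m, u₁) gcd(m, u₂)`.  `VM.OmeStmt` (landed `H2.ome`):
`C ^ (number of primes) ≤ C' u ^ ε`. -/
def AscStmt : Prop :=
  ∀ ε : ℝ, 0 < ε → ∃ C : ℝ, 0 < C ∧ ∀ (u : ℕ) (b m : ℤ), 1 ≤ u → Int.gcd b (u : ℤ) = 1 →
    ‖Sc 4 u b m‖ ≤ C * (u : ℝ) ^ (1 / 2 + ε) * (Int.gcd m (u : ℤ) : ℝ)

/-- AHU: Hua's bound for `k = 4`, from landed rows.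

Proof.  Copy the proof of `Pool.Agent.VM.maj_of` (`Pool/Agent/VM/Major.lean`):
`H85.hua 4 _ H20.hmt (H24.ppw 4 _ (H20.mor 4 _ H29.nwt) (H94.ppb 4 _ H37.stp H85.rtp)
(H17.ppc 4 _ H37.stp)) H2.ome`. -/
def AhuStmt : Prop := VM.HuaStmt 4

/-! ### sums over one block -/

/-- AVD: the second derivative test on a block `(X, Y]`, `Y ≤ 2 X`.

Proof.  `β > 0` (replace `(β, η)` by `(-β, -η)`: complex conjugate).  The difference of the two sums is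
`∑_{X < n ≤ Y} ee (g n)`, `g n = β n ^ 4 + η n`.  `Δ n = g (n+1) - g n` satisfies
`Δ (n+1) - Δ n = β (12 n ^ 2 + 24 n + 14) ≥ λ := 12 β X ^ 2` for `n > X`, so it is increasing, and
`Δ (2 X) - Δ (X + 1) ≤ 1000 β X ^ 3`.  If `λ ≥ 1/4`: trivial bound `X ≤ 2 X √λ`.  If `λ < 1/4`: `δ = √λ`
(`≤ 1/2`).  For every integer `z` the `n` with `|Δ n - z| < δ` are at most `2 δ / λ + 1` (increments
at least `λ`), and between them, for the `n` with `z + δ ≤ Δ n ≤ z + 1 - δ` (consecutive), the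
inequality of Kusmin and Landau (`VM.KulStmt`, landed `H17.kul`) bounds the sum by `3 / δ`.  At most
`1000 β X ^ 3 + 3` integers `z` matter.  Total at most
`(1000 β X ^ 3 + 3) (2 δ / λ + 1 + 3 / δ + 2) ≤ (1000 β X ^ 3 + 3) · 8 / √λ
≤ C (√β X ^ 2 + 1 / (√β X))`.  (Compare `Helper78_HUA/Vbo.lean`, `vbo_main`, `ordc`, `W_int`.) -/
def AvdStmt : Prop :=
  ∃ C : ℝ, 0 < C ∧ ∀ (X Y : ℕ) (β η : ℝ), 1 ≤ X → X ≤ Y → Y ≤ 2 * X → β ≠ 0 →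
    ‖W 4 Y β η - W 4 X β η‖ ≤ C * (√|β| * (X : ℝ) ^ 2 + 1 / (√|β| * (X : ℝ)))

/-- AGC: the sum of the greatest common divisors.

Proof.  `gcd(m, u) ≤ ∑_{g ∣ u, g ∣ m} g`, and for `g ∣ u` there are `u / g` numbers `m < u` with
`g ∣ m`. -/
def AgcStmt : Prop :=
  ∀ u : ℕ, 1 ≤ u → ∑ m ∈ Finset.range u, (Nat.gcd m u : ℝ) ≤ (u : ℝ) * (u.divisors.card : ℝ)

/-- ASP: weighted sum over the frequencies.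

Proof.  For `g ∣ u` put `v = u / g`; the `m < u` with `gcd(m, u) = g` are `m = g m'`, `m' < v`, and
`m / u = m' / v`.  Apply `VM.SplStmt` (landed `H85.spl`) with `u := v`, `A := A / 2` and
`F_g m' = F (g m') / 2` if `gcd(g m', u) = g`, `0` otherwise:
`∑_{gcd(m,u) = g} F m ≤ (2 ρ v + 5) A + 24 v (1 + log v)`.  Multiply with
`w_g = min(a₁, a₂ g)`: `w_g 2 ρ v A ≤ 2 ρ u a₂ A`, `w_g 5 A ≤ 5 a₁ A`,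
`w_g 24 v (1 + log v) ≤ 24 u a₂ (1 + log u)`.  Sum over the divisors `g` of `u`. -/
def AspStmt : Prop :=
  ∀ (u : ℕ) (ξ ρ A a₁ a₂ : ℝ) (w F : ℕ → ℝ), 1 ≤ u → 0 ≤ ρ → 0 ≤ A → 0 ≤ a₁ → 0 ≤ a₂ →
    (∀ m < u, 0 ≤ F m ∧ F m ≤ A) →
    (∀ m < u, 0 ≤ w m ∧ w m ≤ a₁ ∧ w m ≤ a₂ * (Nat.gcd m u : ℝ)) →
    (∀ m < u, ∀ δ : ℝ, 0 < δ → δ ≤ 1 / 2 →
      (∀ z : ℤ, δ + ρ ≤ |ξ - (m : ℝ) / (u : ℝ) - (z : ℝ)|) → F m ≤ 6 / δ) →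
    ∑ m ∈ Finset.range u, w m * F m ≤
      (u.divisors.card : ℝ) * (2 * ρ * (u : ℝ) * a₂ * A + 5 * a₁ * A +
        24 * (u : ℝ) * a₂ * (1 + Real.log u))

/-- ABL (uses ASC, AHU, AVD, AGC, ASP): one block.

Proof.  `VM.CplStmt` (landed `H14.cpl`) for `N = Y` and `N = X`, with `W_β(m) := W 4 Y β (ξ - m/u)
- W 4 X β (ξ - m/u)`: `u (W 4 Y t ξ - W 4 X t ξ) = ∑_{m < u} Sc 4 u b m W_β(m)`.  Put
`w m = |Sc 4 u b m|`, `a₁ = C₁ u ^ (3/4 + ε/4)` (AHU), `a₂ = C₂ u ^ (1/2 + ε/4)` (ASC), `F m = |W_β(m)|`.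
`C₀` is the constant of AVD; the number of divisors of `u` is `≤ C₃ u ^ (ε/4)`
(`Helper69_Weyl/Divisor.lean`, `exists_card_divisors_le`), `1 + log u ≤ C₄ u ^ (ε/4)`.
(i) `|β| X ^ 3 ≤ 1`.  `A = X` if `β = 0`, otherwise `A = min (X, 2 C₀ / (√|β| X))` (AVD, and
`√|β| X ^ 2 ≤ 1 / (√|β| X)`; trivially `F m ≤ Y - X ≤ X`).  So `A ≤ (1 + 2 C₀) M`.
`ρ = 128 |β| X ^ 3`: if `δ + ρ ≤ |ξ - m/u - z|` for all `z`, then `F m ≤ 6 / δ` by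
`VM.VfaStmt 4` (landed `H94.vfa`; for `N = Y ≤ 2 X` and `N = X`, `2 ^ 4 |β| N ^ 3 ≤ ρ`).
`ρ A ≤ 256 C₀ √|β| X ^ 2`.  ASP gives the result (divide by `u`).
(ii) `|β| X ^ 3 > 1`.  `F m ≤ A = 2 C₀ √|β| X ^ 2` (AVD), and
`∑ w m F m ≤ A ∑ a₂ gcd(m, u) ≤ A a₂ u (number of divisors)` (AGC). -/
def AblStmt : Prop :=
  ∀ ε : ℝ, 0 < ε → ∃ C : ℝ, 0 < C ∧ ∀ (X Y u : ℕ) (b : ℤ) (β ξ M : ℝ), 1 ≤ X → X ≤ Y →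
    Y ≤ 2 * X → 1 ≤ u → Int.gcd b (u : ℤ) = 1 →
    ((X : ℝ) ≤ M ∨ (β ≠ 0 ∧ 1 / (√|β| * (X : ℝ)) ≤ M)) →
    ‖W 4 Y ((b : ℝ) / (u : ℝ) + β) ξ - W 4 X ((b : ℝ) / (u : ℝ) + β) ξ‖ ≤
      C * (u : ℝ) ^ ε * ((u : ℝ) ^ (-(1 / 4) : ℝ) * M + √((u : ℝ) * |β|) * (X : ℝ) ^ 2 +
        √(u : ℝ))

/-- AMJ (uses ABL): quartic sums near rational numbers.

Proof.  `t = b/u + β`, `T = N ^ 4 |β|`.  `|W 4 1| ≤ 1`, and `(1, N]` is the union of the blocks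
`(2 ^ j, min(2 ^ (j+1), N)]`, `2 ^ j < N`, at most `1 + log N / log 2` blocks.  ABL with
`M = 2 N (1 + T) ^ (-1/4)`: if `T ≤ 1` then `M ≥ N ≥ X`; if `T > 1`, then
`min(X, 1/(√|β| X)) ≤ |β| ^ (-1/4) = N T ^ (-1/4) ≤ M`.  `√(u |β|) X ^ 2 ≤ √(u T)`.  The logarithm and
`u ^ (ε/2)` are `≤ C (N + u) ^ ε`. -/
def AmjStmt : Prop :=
  ∀ ε : ℝ, 0 < ε → ∃ C : ℝ, 0 < C ∧ ∀ (N u : ℕ) (b : ℤ) (t ξ : ℝ), 1 ≤ N → 1 ≤ u →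
    Int.gcd b (u : ℤ) = 1 →
    ‖W 4 N t ξ‖ ≤ C * ((N : ℝ) + (u : ℝ)) ^ ε *
      ((N : ℝ) * ((u : ℝ) * (1 + (N : ℝ) ^ 4 * |t - (b : ℝ) / (u : ℝ)|)) ^ (-(1 / 4) : ℝ) +
        √((u : ℝ) * (1 + (N : ℝ) ^ 4 * |t - (b : ℝ) / (u : ℝ)|)))

/-- ACS (uses AMJ): case A, for `t` far from the rational numbers with small denominators.

Proof.  `U = u (1 + N ^ 4 |t - b/u|)`; `N / 2 ≤ U` (`VM.Far 4 N t`) and `U ≤ 2 V`.  AMJ with `ε / 2`: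
`(N + u) ^ (ε/2) ≤ (2 N ^ 2) ^ (ε/2)`, `N U ^ (-1/4) ≤ 2 N ^ (3/4)`, `√U ≤ 2 √V`. -/
def AcsStmt : Prop :=
  ∀ ε : ℝ, 0 < ε → ∃ C : ℝ, 0 < C ∧ ∀ (N u : ℕ) (b : ℤ) (t ξ V : ℝ), 1 ≤ N → 1 ≤ u →
    Int.gcd b (u : ℤ) = 1 → VM.Far 4 N t → (u : ℝ) ≤ V →
    (u : ℝ) * ((N : ℝ) ^ 4 * |t - (b : ℝ) / (u : ℝ)|) ≤ V → V ≤ (N : ℝ) ^ 2 →
    ‖W 4 N t ξ‖ ≤ C * (N : ℝ) ^ ε * ((N : ℝ) ^ (3 / 4 : ℝ) + √V)

/-- APA (uses AMJ): the form of `Pool.Agent.K4W.PartA` (`K4W/Defs.lean`).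

Proof.  `T = N ^ 4 |t - b/u|`, `u T ≤ N ^ 4 / P`.  `N (u (1 + T)) ^ (-1/4) ≤ N u ^ (-1/4)`,
`√(u (1 + T)) ≤ √u + √(u T) ≤ √u + N ^ 2 P ^ (-1/2)`, `N + u ≤ 2 N u`. -/
def ApaStmt : Prop := AmjStmt → PartA

/-- AFF (uses ACS, PartB): the bound for `t` far from rational numbers with small denominators, hence
(landed `VM.ffa`, `VM.maj`) the full form for all `q`.

Proof.  `N` large (small `N`: constant).  `Z` with `Z ^ 64000 ≤ N < (Z + 1) ^ 64000 ≤ 2 Z ^ 64000`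
(`Z ≥ 10 ^ 6`).  Dirichlet (`Real.exists_rat_abs_sub_le_and_den_le` or similar) at the level
`P = Z ^ 144200`: coprime `b`, `u ≤ P` with `|t - b/u| ≤ 1 / (u P)`.
If `u ≥ Z ^ 111900`: PartB with `Q = u`: `‖W‖ ^ 4 ≤ Z ^ (224000 - 66) ≤ N ^ (7/2 - 66/64000)` and
`66 / 256000 > 1 / 4000`.
If `u < Z ^ 111900`: ACS (with `ε / 2`, `V = 16 Z ^ 111900`; `u N ^ 4 |t - b/u| ≤ N ^ 4 / P
≤ 16 Z ^ 111800`): `‖W‖ ≤ C N ^ (ε/2) (N ^ (3/4) + 4 Z ^ 55950)`, and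
`55950 / 64000 ≤ 7/8 - 1/4000`. -/
def AffStmt : Prop := AcsStmt → PartB → VM.WFarStmt 4 (1 / 8 + 1 / 4000)

end Pool.Agent.K4W
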