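import Mathlib
import Pool.Agent.K4W.Defs

set_option autoImplicit false

/-! Statements of the squad K4W, block P: Poisson summation for the theta function near a fraction
with an odd denominator, quadratic Gauss sums, sizes of the coefficients (B4 of `K4.md`, with the
simplifications S1 - S4 of note 3658).

`th N (a / r + γ)` is a theta sum of the length `R = RR N r γ = r w`, `w = wg N γ`; the coefficients
`cf N r γ m = r ^ (-1/2) A ^ (-1/2) exp (- π m ^ 2 / (r ^ 2 A))`, `A = Ag N γ = 4 / N ^ 2 - 2 i γ`, have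
the size `(N / (2 R)) ^ (1/2) exp (- π m ^ 2 / R ^ 2)`.

Tools: `Helper69_Weyl.Basic` (`ee_add`, `ee_neg`, `ee_int`, `norm_ee`, `conj_ee`, `ee_eq_one_iff`,
`sum_ee_div`, `norm_ee_sub_le`), `Pool.Agent.Helper20_HUA.Hmt` (`VM.H20.ee_cong`: `ee (n / r)` depends
only on `n` modulo `r`; `VM.H20.hmt`), `GS r a m = Pool.Agent.VM.Sc 2 r a m` by definition. -/

namespace Pool.Agent.K4W

open Complex
open Pool.Agent.Helper69_Weyl (ee W)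

/-- The length of the theta sum. -/
noncomputable def RR (N r : ℕ) (γ : ℝ) : ℝ := (r : ℝ) * wg N γ

/-- Row PER (sums of periodic functions over a complete system of residues).

Proof. `f` factors over `ZMod r` (`f x = f' (x : ZMod r)`), and `∑ c ∈ range r, f c` is the sum of
`f'` over `ZMod r`; `x ↦ x + x0` and, for a unit `u`, `x ↦ u x` are bijections of `ZMod r`. -/
def PerStmt : Prop :=
  ∀ (r : ℕ), 0 < r → ∀ f : ℤ → ℂ, (∀ x : ℤ, f (x + (r : ℤ)) = f x) →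
    (∀ x0 : ℤ, ∑ c ∈ Finset.range r, f ((c : ℤ) + x0) = ∑ c ∈ Finset.range r, f (c : ℤ)) ∧
    ∀ u : ℤ, IsCoprime u (r : ℤ) →
      ∑ c ∈ Finset.range r, f (u * (c : ℤ)) = ∑ c ∈ Finset.range r, f (c : ℤ)

/-- Row CSQ (completing the square). `w` is an inverse of `4 a` modulo `r`.

Proof. `a c ^ 2 + m c` and `a (c + 2 w m) ^ 2 - w m ^ 2` are congruent modulo `r` (`4 a w = 1`), and the
sum of `ee (a (c + 2 w m) ^ 2 / r)` over `c` is `GS r a 0` by PER. -/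
def CsqStmt : Prop :=
  ∀ (r : ℕ) (a m w : ℤ), 0 < r → (r : ℤ) ∣ 4 * a * w - 1 →
    GS r a m = ee (((-(w * m ^ 2) : ℤ) : ℝ) / (r : ℝ)) * GS r a 0

/-- Row GAB (absolute value of the Gauss sum).

Proof. `m = 0` by CSQ. `|G| ^ 2 = ∑ c d, ee (a (c ^ 2 - d ^ 2) / r)`; for fixed `d` replace `c` by `d + h`
(PER): `∑ h, ee (a h ^ 2 / r) ∑ d, ee (2 a h d / r)`, and the inner sum is `r` if `r ∣ 2 a h`, that is
`r ∣ h` (`2 a` is a unit modulo `r` since `r ∣ 4 a w - 1`), and `0` otherwise. -/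
def GabStmt : Prop :=
  ∀ (r : ℕ) (a m w : ℤ), 0 < r → (r : ℤ) ∣ 4 * a * w - 1 → ‖GS r a m‖ = Real.sqrt (r : ℝ)

/-- Row GQ2 (Gauss sums, `p ^ 2 r`).

Proof. Every residue modulo `p ^ 2 r` is `x + p r y` for exactly one pair `x < p r`, `y < p`, and
`(x + p r y) ^ 2 = x ^ 2 + 2 p r x y` modulo `p ^ 2 r`; `∑ y, ee (2 a x y / p)` is `p` if `p ∣ x` and `0`
otherwise (`p` is odd and does not divide `a`). For `x = p x'`, `x' < r`,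
`ee (a x ^ 2 / (p ^ 2 r)) = ee (a x' ^ 2 / r)`. -/
def Gq2Stmt : Prop :=
  ∀ (p r : ℕ) (a : ℤ), p.Prime → p ≠ 2 → 0 < r → ¬ (p : ℤ) ∣ a →
    GS (p ^ 2 * r) a 0 = (p : ℂ) * GS r a 0

/-- Row GPR (the multiplicativity modulo a prime).

Proof. If `a = t ^ 2` modulo `p`, then `GS (a x) = GS x` for all `x` (PER with `u = t`); the claim is
clear, and also if `b` is a square. If `a` is no square, `GS (a x) = - GS x` for `x` prime to `p`: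
`GS x + GS (a x) = 2 ∑ n mod p, ee (x n / p) = 0` (each `n ≠ 0` is a square or `a` times a square, in
exactly two ways). If `a` and `b` are no squares, `a b` is a square modulo `p`, and both sides are
`(GS c) ^ 2`. -/
def GprStmt : Prop :=
  ∀ (p : ℕ) (a b c : ℤ), p.Prime → p ≠ 2 → ¬ (p : ℤ) ∣ a → ¬ (p : ℤ) ∣ b → ¬ (p : ℤ) ∣ c →
    GS p (a * b * c) 0 * GS p c 0 = GS p (a * c) 0 * GS p (b * c) 0

/-- Row GML (multiplicativity of Gauss sums in the numerator).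

Proof. Strong induction on `r` (for all `a`, `b`, `c`). `r = 1` is clear. Let `p` be a prime divisor of `r`,
`p` is odd. If `p ^ 2 ∣ r`: GQ2 and the induction hypothesis for `r / p ^ 2`. If `r = p s` with `p` prime to
`s`: `GS (p s) x 0 = GS p (x s) 0 * GS s (x p) 0` (`VM.H20.hmt` with `k = 2`) and the claim is the
product of GPR for `a, b, c s` and of the induction hypothesis for `s` and `a, b, c p`. -/
def GmlStmt : Prop :=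
  ∀ (r : ℕ) (a b c : ℤ), Odd r → IsCoprime a (r : ℤ) → IsCoprime b (r : ℤ) →
    IsCoprime c (r : ℤ) → GS r (a * b * c) 0 * GS r c 0 = GS r (a * c) 0 * GS r (b * c) 0

/-- Row PRG (Poisson summation in a progression).

Proof. `Complex.tsum_exp_neg_quadratic` with `a = A r ^ 2`, `b = - A c r`:
`- π A (c + r k) ^ 2 = - π A c ^ 2 + (- π a k ^ 2 + 2 π b k)` and
`- π / a (n + i b) ^ 2 = - π n ^ 2 / (A r ^ 2) + 2 π i n c / r + π A c ^ 2`;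
`(A r ^ 2) ^ (1/2) = r A ^ (1/2)` (`r ^ 2` is a positive real number). -/
def PrgStmt : Prop :=
  ∀ (A : ℂ) (r : ℕ) (c : ℤ), 0 < A.re → 0 < r →
    ∑' k : ℤ, cexp (-((Real.pi : ℂ) * A * ((c : ℂ) + (r : ℂ) * (k : ℂ)) ^ 2)) =
      (1 / (r : ℂ)) * A ^ (-(1 / 2) : ℂ) * ∑' m : ℤ, ee (((m * c : ℤ) : ℝ) / (r : ℝ)) *
        cexp (-((Real.pi : ℂ) * (m : ℂ) ^ 2 / ((r : ℂ) ^ 2 * A)))

/-- Row GSC (absolute convergence): the Gaussians of `th` and of Poisson's formula are summable.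
(`summable_exp_mul_sq`, or comparison with a geometric series.) -/
def GscStmt : Prop :=
  ∀ A : ℂ, 0 < A.re → ∀ c r : ℝ, 0 < r →
    Summable fun k : ℤ => ‖cexp (-((Real.pi : ℂ) * A * ((c : ℂ) + (r : ℂ) * (k : ℂ)) ^ 2))‖

/-- Row POI (Poisson summation for theta).

Proof. `A = Ag N γ`, `Re A = 4 / N ^ 2 > 0`. `ga N (2 s) ee ((a / r + γ) s ^ 2) =
ee (a s ^ 2 / r) exp (- π A s ^ 2)`. Split the (absolutely convergent, GSC) sum over `s` into the classes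
`s = c + r k`, `c < r`; `ee (a s ^ 2 / r)` depends only on `c`. PRG for each `c`, and exchange the finite
sum over `c` and the sum over `m` (the series over `m` converge absolutely: GSC for `1 / A`).
`1 / r = r ^ (-1/2) r ^ (-1/2)`. -/
def PoiStmt : Prop :=
  ∀ (N r : ℕ) (a : ℤ) (γ : ℝ), 0 < N → 0 < r →
    th N ((a : ℝ) / (r : ℝ) + γ) =
      ∑' m : ℤ, (((r : ℝ) ^ (-(1 / 2) : ℝ) : ℝ) : ℂ) * GS r a m * cf N r γ m

/-- Row FAC (theta near a fraction with an odd denominator). POI and CSQ. -/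
def FacStmt : Prop :=
  ∀ (N r : ℕ) (a w : ℤ) (γ : ℝ), 0 < N → 0 < r → (r : ℤ) ∣ 4 * a * w - 1 →
    th N ((a : ℝ) / (r : ℝ) + γ) = ((((r : ℝ) ^ (-(1 / 2) : ℝ) : ℝ) : ℂ) * GS r a 0) *
      ∑' m : ℤ, cf N r γ m * ee (((-(w * m ^ 2) : ℤ) : ℝ) / (r : ℝ))

/-- Row GSM (sum of a Gaussian).

Proof. `exp (- π k ^ 2 / T ^ 2) ≤ ∫ x in (k-1)..k, exp (- π x ^ 2 / T ^ 2)` for `k ≥ 1`, and the integral over
`(0, ∞)` is `T / 2`; the same for `k ≤ -1`. -/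
def GsmStmt : Prop :=
  ∀ T : ℝ, 0 < T → (Summable fun k : ℤ => Real.exp (-(Real.pi * (k : ℝ) ^ 2 / T ^ 2))) ∧
    ∑' k : ℤ, Real.exp (-(Real.pi * (k : ℝ) ^ 2 / T ^ 2)) ≤ 1 + T

/-- Row CAB (absolute value of the coefficients). `R = RR N r γ = r w`.

Proof. `|A| ^ 2 = 16 / N ^ 4 + 4 γ ^ 2 = (4 / N ^ 2) w ^ 2`, `|A ^ (-1/2)| = |A| ^ (-1/2)`
(`Complex.norm_cpow_of_ne_zero`), `Re (1 / A) = Re A / |A| ^ 2 = 1 / w ^ 2`. -/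
def CabStmt : Prop :=
  ∀ (N r : ℕ) (γ : ℝ) (m : ℤ), 0 < N → 0 < r → 0 < RR N r γ ∧
    ‖cf N r γ m‖ = Real.sqrt ((N : ℝ) / (2 * RR N r γ)) *
      Real.exp (-(Real.pi * (m : ℝ) ^ 2 / (RR N r γ) ^ 2))

/-- Row SZS (sums of the coefficients).

Proof. CAB and GSM with `T = R`, `T = R / √2 ≤ R`, `T = R / μ`, `T = √2 R ≤ 2 R`; for `|m| > M`
`exp (- π m ^ 2 / R ^ 2) ≤ exp (- π M ^ 2 / (2 R ^ 2)) exp (- π m ^ 2 / (2 R ^ 2))`. -/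
def SzsStmt : Prop :=
  ∀ (N r : ℕ) (γ : ℝ), 0 < N → 0 < r →
    (Summable fun m : ℤ => ‖cf N r γ m‖) ∧
    ∑' m : ℤ, ‖cf N r γ m‖ ≤ Real.sqrt ((N : ℝ) / (2 * RR N r γ)) * (1 + RR N r γ) ∧
    (∀ F : Finset ℤ, ∑ m ∈ F, ‖cf N r γ m‖ ^ 2 ≤ (N : ℝ) / (2 * RR N r γ) * (1 + RR N r γ)) ∧
    (∀ (μ : ℕ), 0 < μ → ∀ F : Finset ℤ, (∀ m ∈ F, (μ : ℤ) ∣ m) →
      ∑ m ∈ F, ‖cf N r γ m‖ ≤
        Real.sqrt ((N : ℝ) / (2 * RR N r γ)) * (1 + RR N r γ / (μ : ℝ))) ∧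
    ∀ (M : ℕ) (F : Finset ℤ), (∀ m ∈ F, (M : ℤ) < |m|) →
      ∑ m ∈ F, ‖cf N r γ m‖ ≤ Real.sqrt ((N : ℝ) / (2 * RR N r γ)) *
        Real.exp (-(Real.pi * (M : ℝ) ^ 2 / (2 * (RR N r γ) ^ 2))) * (1 + 2 * RR N r γ)

/-- Row TRV (trivial bound for theta near a fraction). FAC, GAB, SZS (first sum); for `r` odd and `a`
prime to `r` there is `w` with `r ∣ 4 a w - 1`. -/
def TrvStmt : Prop :=
  ∀ (N r : ℕ) (a : ℤ) (γ : ℝ), 0 < N → Odd r → IsCoprime a (r : ℤ) →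
    ‖th N ((a : ℝ) / (r : ℝ) + γ)‖ ≤
      Real.sqrt ((N : ℝ) / (2 * RR N r γ)) * (1 + RR N r γ)

/-- Row TRM (trivial bound for the dilations by a divisor `μ` of the denominator).

Proof. `r = μ s`, `μ (b / r + β) = b / s + μ β`, TRV for `s`, and `RR N s (μ β) = RR N r (μ β) / μ`. -/
def TrmStmt : Prop :=
  ∀ (N r μ : ℕ) (b : ℤ) (β : ℝ), 0 < N → Odd r → IsCoprime b (r : ℤ) → 0 < μ → μ ∣ r →
    ‖th N ((μ : ℝ) * ((b : ℝ) / (r : ℝ) + β))‖ ≤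
      Real.sqrt ((N : ℝ) * (μ : ℝ) / (2 * RR N r ((μ : ℝ) * β))) *
        (1 + RR N r ((μ : ℝ) * β) / (μ : ℝ))

/-- Row FOU (the coefficients are Fourier integrals).

Proof. `fourier_gaussian_pi` with `b = Ag N γ` at the point `t = m / r`; the integrand is
`exp (- π A s ^ 2) = ga N (2 s) ee (γ s ^ 2)`. -/
def FouStmt : Prop :=
  ∀ (N r : ℕ) (γ : ℝ) (m : ℤ), 0 < N → 0 < r →
    cf N r γ m = (((r : ℝ) ^ (-(1 / 2) : ℝ) : ℝ) : ℂ) *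
      ∫ s : ℝ, (ga N (2 * s) : ℂ) * (ee (γ * s ^ 2) * ee (-(s * (m : ℝ) / (r : ℝ))))

/-- Row LIP (Lipschitz bound for the coefficients).

Proof. FOU, `|ee (γ s ^ 2) - ee (γ' s ^ 2)| ≤ 2 π |γ - γ'| s ^ 2` (`norm_ee_sub_le`) and
`∫ s ^ 2 exp (- 4 π s ^ 2 / N ^ 2) = N ^ 3 / (16 π)` (for example `integral_rpow_mul_exp_neg_mul_sq`, or
`s ^ 2 exp (- 4 π s ^ 2 / N ^ 2) ≤ (N ^ 2 / (2 π)) exp (- 2 π s ^ 2 / N ^ 2)` with `x ≤ exp x`, whose integral is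
`N ^ 2 / (2 π) N / √2`: `2 π` times this is at most `N ^ 3`). -/
def LipStmt : Prop :=
  ∀ (N r : ℕ) (γ γ' : ℝ) (m : ℤ), 0 < N → 0 < r →
    ‖cf N r γ m - cf N r γ' m‖ ≤ |γ - γ'| * (N : ℝ) ^ 3 / Real.sqrt (r : ℝ)

/-- The main part of `∑ μ ∈ S, ψ μ * th N (μ (b / r + β))`: `u` is an inverse of `4 b`, `v μ` an inverse
of `μ` modulo `r`. -/
noncomputable def PS (N r M : ℕ) (S : Finset ℕ) (ψ : ℕ → ℂ) (v : ℕ → ℤ) (β : ℝ) (u : ℤ) : ℂ :=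
  ∑ μ ∈ S.filter (fun μ => ¬ μ ∣ r), (ψ μ * (GS r (μ : ℤ) 0 / GS r 1 0)) *
    ∑ m ∈ (Finset.Icc (-(M : ℤ)) (M : ℤ)).filter (fun m => ¬ (μ : ℤ) ∣ m),
      cf N r ((μ : ℝ) * β) m * ee (((-(u * v μ * m ^ 2) : ℤ) : ℝ) / (r : ℝ))

/-- Row GUN (the unimodular factors). GML (`a = μ`, `b = b`, `c = 1`) and GAB. -/
def GunStmt : Prop :=
  ∀ (r : ℕ) (a b : ℤ), Odd r → IsCoprime a (r : ℤ) → IsCoprime b (r : ℤ) →
    ‖(((r : ℝ) ^ (-(1 / 2) : ℝ) : ℝ) : ℂ) * GS r b 0‖ = 1 ∧ ‖GS r a 0 / GS r 1 0‖ = 1 ∧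
    GS r (a * b) 0 = GS r b 0 * (GS r a 0 / GS r 1 0)

/-- Row PMN (the main formula, with all error terms).

Proof. For `μ ∣ r` TRM. For `μ` prime to `r`: FAC with `a = μ b`, `γ = μ β`, `w = u v_μ`
(`4 μ b u v_μ = 1` modulo `r`) and GUN: the factor `r ^ (-1/2) GS r b 0`, which is the same for all `μ`, has
the absolute value `1`. The terms of the series with `μ ∣ m` and those with `|m| > M` are estimated with
SZS (`Summable.tsum_eq_...`: the sum over all `m` is the finite sum over `|m| ≤ M`, `μ ∤ m`, plus the sum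
over the rest; each finite part of the rest is at most the sum of the two bounds). -/
def PmnStmt : Prop :=
  ∀ (N r M : ℕ) (S : Finset ℕ) (ψ : ℕ → ℂ) (v : ℕ → ℤ) (β : ℝ) (b u : ℤ), 0 < N → Odd r →
    (∀ μ ∈ S, μ.Prime) → (∀ μ ∈ S, ‖ψ μ‖ ≤ 1) → IsCoprime b (r : ℤ) →
    (r : ℤ) ∣ 4 * b * u - 1 → (∀ μ ∈ S, ¬ μ ∣ r → (r : ℤ) ∣ (μ : ℤ) * v μ - 1) →
    ‖∑ μ ∈ S, ψ μ * th N ((μ : ℝ) * ((b : ℝ) / (r : ℝ) + β))‖ ≤
      ‖PS N r M S ψ v β u‖ +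
      ∑ μ ∈ S.filter (fun μ => μ ∣ r),
        Real.sqrt ((N : ℝ) * (μ : ℝ) / (2 * RR N r ((μ : ℝ) * β))) *
          (1 + RR N r ((μ : ℝ) * β) / (μ : ℝ)) +
      ∑ μ ∈ S.filter (fun μ => ¬ μ ∣ r), Real.sqrt ((N : ℝ) / (2 * RR N r ((μ : ℝ) * β))) *
        ((1 + RR N r ((μ : ℝ) * β) / (μ : ℝ)) +
          Real.exp (-(Real.pi * (M : ℝ) ^ 2 / (2 * (RR N r ((μ : ℝ) * β)) ^ 2))) *
            (1 + 2 * RR N r ((μ : ℝ) * β)))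

/-- Row RZB (the range of `R`). `L = Z ^ 1000`, `D = Z ^ 84`. (FINAL FORM 11:42: `ParR`, `166`, `9`.)

Proof. `R ^ 2 = 4 r ^ 2 / N ^ 2 + μ ^ 2 (r β) ^ 2 N ^ 2 ≤ 16 D ^ 2 + 64 L ^ 2 D ^ 2 ≤ 81 L ^ 2 D ^ 2` and
`R ≥ μ r |β| N ≥ Z ^ 166`. -/
def RzbStmt : Prop :=
  ∀ (Z N r μ : ℕ) (b : ℤ) (β : ℝ), 2 ≤ Z → 0 < N → ParR Z N r b β →
    Z ^ 1000 < μ → μ ≤ 2 * Z ^ 1000 →
    (Z : ℝ) ^ 166 ≤ RR N r ((μ : ℝ) * β) ∧ RR N r ((μ : ℝ) * β) ≤ 9 * (Z : ℝ) ^ 1084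

/-- Row SZZ (sums of the coefficients, in terms of `Z`). (FINAL FORM 11:42: `ParR`.) RZB and SZS:
`√(N / (2 R)) (1 + R) ≤ √(N / (2 R)) (√2 R) = √(N R) ≤ 3 √N Z ^ 542` (`R ≥ Z ^ 166 ≥ 3`), and
`N / (2 R) (1 + R) ≤ N`. -/
def SzzStmt : Prop :=
  ∀ (Z N r μ : ℕ) (b : ℤ) (β : ℝ), 2 ≤ Z → 0 < N → ParR Z N r b β →
    Z ^ 1000 < μ → μ ≤ 2 * Z ^ 1000 → ∀ F : Finset ℤ,
    ∑ m ∈ F, ‖cf N r ((μ : ℝ) * β) m‖ ≤ 3 * Real.sqrt (N : ℝ) * (Z : ℝ) ^ 542 ∧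
    ∑ m ∈ F, ‖cf N r ((μ : ℝ) * β) m‖ ^ 2 ≤ (N : ℝ)

/-- Row DVS (few primes divide `r`). `S` consists of primes larger than `Z ^ 1000`, `r < Z ^ 65000`; the
product of the `μ ∈ S` which divide `r` divides `r`. -/
def DvsStmt : Prop :=
  ∀ (Z r : ℕ) (S : Finset ℕ), 2 ≤ Z → 0 < r → r < Z ^ 65000 →
    (∀ μ ∈ S, μ.Prime ∧ Z ^ 1000 < μ) → (S.filter (fun μ => μ ∣ r)).card ≤ 65

/-- Row PFZ (the main formula in terms of `Z`). (FINAL FORM 11:42: `ParR`, `ParS`, `M = Z ^ 1085`, error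
`#S Z ^ 31918`.)

Proof. PMN with `M = Z ^ 1085`, RZB (so `M / R ≥ Z / 9`), DVS (`r ≤ 2 N Z ^ 84 < Z ^ 65000`). For `μ` prime
to `r`: `√(N / (2 R)) (1 + R / μ) ≤ √N (R ^ (-1/2) + R ^ (1/2) / μ) ≤ √N (Z ^ (-83) + 3 Z ^ (542 - 1000))`, and
`√(N / (2 R)) exp (- π M ^ 2 / (2 R ^ 2)) (1 + 2 R) ≤ √N exp (- π Z ^ 2 / 162) 19 Z ^ 1084 ≤ √N Z ^ (-83)` for
large `Z`. For the at most `65` primes `μ ∣ r`: `√(N μ / (2 R)) (1 + R / μ) ≤ √N (√(μ / R) + √(R / μ)) ≤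
√N (2 Z ^ 417 + 3 Z ^ 42)`, and `#S ≥ Z ^ 999`. Together at most `3 #S √N Z ^ (-83) ≤ #S Z ^ 31918` for large
`Z` (`√N ≤ √2 Z ^ 32000`). -/
def PfzStmt : Prop :=
  ∃ Z0 : ℕ, ∀ (Z N r : ℕ) (S : Finset ℕ) (ψ : ℕ → ℂ) (v : ℕ → ℤ) (β : ℝ) (b u : ℤ), Z0 ≤ Z →
    0 < N → N ≤ 2 * Z ^ 64000 → ParS Z S → ParR Z N r b β → (∀ μ ∈ S, ‖ψ μ‖ ≤ 1) →
    (r : ℤ) ∣ 4 * b * u - 1 → (∀ μ ∈ S, ¬ μ ∣ r → (r : ℤ) ∣ (μ : ℤ) * v μ - 1) →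
    ‖∑ μ ∈ S, ψ μ * th N ((μ : ℝ) * ((b : ℝ) / (r : ℝ) + β))‖ ≤
      ‖PS N r (Z ^ 1085) S ψ v β u‖ + (S.card : ℝ) * (Z : ℝ) ^ 31918

/-- Row LPS (the main part is Lipschitz in `β`).

Proof. LIP with `γ = μ β`, `γ' = μ β'`: each of the at most `#S (2 M + 1)` terms changes by at most
`μ |β - β'| N ^ 3 / √r` (the factors `ψ μ`, `GS r μ 0 / GS r 1 0` (GUN) and `ee` have absolute value at
most `1`). -/
def LpsStmt : Prop :=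
  ∀ (N r M L : ℕ) (S : Finset ℕ) (ψ : ℕ → ℂ) (v : ℕ → ℤ) (β β' : ℝ) (u : ℤ), 0 < N → Odd r →
    (∀ μ ∈ S, μ.Prime ∧ μ ≤ L) → (∀ μ ∈ S, ‖ψ μ‖ ≤ 1) →
    ‖PS N r M S ψ v β u - PS N r M S ψ v β' u‖ ≤
      (S.card : ℝ) * (2 * (M : ℝ) + 1) * ((L : ℝ) * |β - β'| * (N : ℝ) ^ 3 / Real.sqrt (r : ℝ))

end Pool.Agent.K4W
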