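import Pool.Agent.K4W.Defs
import Pool.Agent.K4W.StmtsP

/-!
# Squad K4W, block F: counting, exceptional set, assembly (paper: team-store/K4.md, note 3652)

Complete proofs are in the docstrings. `Z₀` may be any (huge) constant: every row is of the form
`∃ Z₀, ∀ Z ≥ Z₀`, so numerical constants are absorbed by one factor `Z`.  NEVER let `norm_num`,
`simp` or `decide` evaluate powers with huge exponents of NUMERALS; treat `Z ^ k` symbolically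
(`pow_add`, `pow_le_pow_right₀`, `gcongr`).

Sizes: `L = Z ^ 1000`, `E = Z ^ 80`, `D = Z ^ 84`, `X = Xz Z = 8 Z ^ 127002`, `δ = 1 / Z ^ 130216`.
-/

set_option autoImplicit false

open scoped Classical

namespace Pool.Agent.K4W

open Pool.Agent.Helper69_Weyl (ee W)
open Pool.Agent.VM (Nr)

/-- the inverse of `μ` modulo `r` -/
noncomputable def vv (r μ : ℕ) : ℤ := (((μ : ZMod r)⁻¹).val : ℤ)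

/-- the inverse of `4 u` modulo `r` -/
noncomputable def bb (r u : ℕ) : ℤ := (((4 * (u : ZMod r))⁻¹).val : ℤ)

/-- the size of `N` -/
def Sz (Z N : ℕ) : Prop := Z ^ 64000 ≤ N ∧ N ≤ 2 * Z ^ 64000

/-! ## Dirichlet and Bezout -/

/-- LAT: a rational approximation with an ODD denominator near `N`.

Proof. Dirichlet (`Real.exists_nat_abs_mul_sub_round_le` or `exists_int_int_abs_mul_sub_le`) with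
the bound `N D`: `1 ≤ r₁ ≤ N D`, `|r₁ x - b₁| ≤ 1 / (N D + 1)`; divide by the gcd, so
`gcd (r₁, b₁) = 1`. If `r₁ D ≤ N`, the first case. If `r₁ D > N` and `r₁` is odd: the second case
(`1 / (N D) ≤ 2 D / N`). If `r₁` is even, there are (Bezout) `0 ≤ r₂ < r₁` and `b₂` with
`r₁ b₂ - r₂ b₁ = 1`; `r₂` is odd. `r = r₁ + r₂ < 2 r₁`, `b = b₁ + b₂`: `r` is odd,
`r₁ b - r b₁ = 1`, so `gcd (r, b) = 1`; `r₁ (r₂ x - b₂) = r₂ (r₁ x - b₁) + (r₂ b₁ - r₁ b₂)`, so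
`|r₂ x - b₂| ≤ |r₁ x - b₁| + 1 / r₁ ≤ 1 / (N D) + D / N`, and
`|r x - b| ≤ 2 / (N D) + D / N ≤ 2 D / N` (`D ≥ 2`). -/
def LatStmt : Prop :=
  ∀ (x : ℝ) (N D : ℕ), 1 ≤ N → 2 ≤ D →
    (∃ (r : ℕ) (b : ℤ), 1 ≤ r ∧ r * D ≤ N ∧ |(r : ℝ) * x - (b : ℝ)| ≤ 1 / ((D : ℝ) * (N : ℝ))) ∨
    (∃ (r : ℕ) (b : ℤ), Odd r ∧ N < r * D ∧ r ≤ 2 * N * D ∧ Int.gcd b (r : ℤ) = 1 ∧
      |(r : ℝ) * x - (b : ℝ)| ≤ 2 * (D : ℝ) / (N : ℝ))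

/-! ## Counting -/

/-- DVZ: the divisor bound. Proof: `d(n) ≤ C n ^ ε` with `ε = 10 ^ (-6)` (landed:
`Pool.Agent.VM5.H83.dvb : DvbStmt`, or any divisor bound of the library, e.g.
`Helper69_Weyl.Divisor`), `n ^ ε ≤ Z ^ 0.3`. -/
def DvzStmt : Prop :=
  ∃ Z₀ : ℕ, ∀ Z : ℕ, Z₀ ≤ Z → ∀ n : ℕ, 1 ≤ n → n ≤ Z ^ 300000 → (Nat.divisors n).card ≤ Z

/-- C48: Proof. `CnuStmt` (landed: `Pool.Agent.VM5.H48.cnu` in Helper48_VM5/Cnu.lean) for `m' = 48 m`, `|m'| ≤ 48 X`: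
`16 (48 X / Q + 1) (η Q + 1) ≤ 768 (X / Q + 1) (η Q + 1)`. -/
def C48Stmt : Prop :=
  ∀ (t η : ℝ) (a : ℤ) (Q X : ℕ), 1 ≤ Q → Int.gcd a (Q : ℤ) = 1 →
    |t - (a : ℝ) / (Q : ℝ)| ≤ 1 / (Q : ℝ) ^ 2 → 0 ≤ η →
    (((Finset.Icc (-(X : ℤ)) (X : ℤ)).filter (fun m : ℤ => Nr (48 * t * (m : ℝ)) η)).card : ℝ) ≤
      768 * ((X : ℝ) / (Q : ℝ) + 1) * (η * (Q : ℝ) + 1)

/-- CSP: the number of `H` such that `r · 48 t H` is near an integer for some `r ≤ R`.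

Proof. Map `(r, H)` to `m = r H`, `0 < |m| ≤ R X ≤ Z ^ 300000`, `Nr (48 t m) η`: C48 with `R X` in
place of `X` bounds the number of `m`; every `m` comes from at most `(Nat.divisors |m|).card ≤ Z`
values of `r`, so (`H = m / r`) from at most `Z` values `H` (DVZ). -/
def CspStmt : Prop :=
  ∃ Z₀ : ℕ, ∀ Z : ℕ, Z₀ ≤ Z → ∀ (t η : ℝ) (a : ℤ) (Q R X : ℕ), 1 ≤ Q → Int.gcd a (Q : ℤ) = 1 →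
    |t - (a : ℝ) / (Q : ℝ)| ≤ 1 / (Q : ℝ) ^ 2 → 0 ≤ η → R * X ≤ Z ^ 300000 →
    (((Hs X).filter (fun H : ℤ => ∃ r : ℕ, 1 ≤ r ∧ r ≤ R ∧
      Nr (48 * t * (H : ℝ) * (r : ℝ)) η)).card : ℝ) ≤
      (Z : ℝ) * (768 * ((R : ℝ) * (X : ℝ) / (Q : ℝ) + 1) * (η * (Q : ℝ) + 1))

/-- CL1: the first cusp. Proof. CSP with `R = N / Z ^ 84`, `η = 1 / (Z ^ 84 N)`:
`768 Z (R X / Q + 1) (Q / (D N) + 1) = 768 Z (R X / (D N) + R X / Q + Q / (D N) + 1)`,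
`R X / (D N) ≤ X / D ^ 2 = X / Z ^ 168`; `R X / Q ≤ 2 X Z ^ (64000 - 84 - 111900)`;
`Q / (D N) ≤ Z ^ (144200 - 84 - 64000)`, all much smaller than `X / Z ^ 168`, `X = 8 Z ^ 127002`. -/
def Cl1Stmt : Prop :=
  ∃ Z₀ : ℕ, ∀ Z : ℕ, Z₀ ≤ Z → ∀ (N Q : ℕ) (a : ℤ) (t : ℝ), ParB Z N Q a t →
    (((Hs (Xz Z)).filter (fun H : ℤ => ∃ r : ℕ, 1 ≤ r ∧ r * Z ^ 84 ≤ N ∧
      Nr (48 * t * (H : ℝ) * (r : ℝ)) (1 / ((Z : ℝ) ^ 84 * (N : ℝ))))).card : ℝ) *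
      (3 * (Z : ℝ) ^ 164) ≤ (Xz Z : ℝ)

/-- CL2: the second cusp. Proof. CSP with `R = 2 N Z ^ 84`, `η = Z ^ 170 / (Z ^ 1000 N)`:
`R X η ≤ 2 X Z ^ (84 + 170 - 1000)`, `R X / Q ≤ 4 X Z ^ (64084 - 111900)`,
`Q η ≤ Z ^ (144200 + 170 - 1000 - 64000)`, all much smaller than `X / Z ^ 168`. -/
def Cl2Stmt : Prop :=
  ∃ Z₀ : ℕ, ∀ Z : ℕ, Z₀ ≤ Z → ∀ (N Q : ℕ) (a : ℤ) (t : ℝ), ParB Z N Q a t →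
    (((Hs (Xz Z)).filter (fun H : ℤ => ∃ r : ℕ, 1 ≤ r ∧ r ≤ 2 * N * Z ^ 84 ∧
      Nr (48 * t * (H : ℝ) * (r : ℝ)) ((Z : ℝ) ^ 170 / ((Z : ℝ) ^ 1000 * (N : ℝ))))).card : ℝ) *
      (3 * (Z : ℝ) ^ 164) ≤ (Xz Z : ℝ)

/-- CHC: the number of `H` in a cell. Proof. If the set is not empty, fix `H₀` in it; for every `H` in
it `m = H - H₀`, `|m| ≤ 2 X`, `Nr (48 t m) (2 δ)`. C48: `768 (2 X / Q + 1) (2 δ Q + 1)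
= 768 (4 X δ + 2 X / Q + 2 δ Q + 1)`, `X δ ≤ 1`, `X / Q ≤ 8 Z ^ 15102`, `δ Q ≤ Z ^ 13984`. -/
def ChcStmt : Prop :=
  ∃ Z₀ : ℕ, ∀ Z : ℕ, Z₀ ≤ Z → ∀ (N Q : ℕ) (a : ℤ) (t c : ℝ), ParB Z N Q a t →
    (((Hs (Xz Z)).filter (fun H : ℤ => Nr (48 * t * (H : ℝ) - c) (1 / (Z : ℝ) ^ 130216))).card : ℝ) ≤
      (Z : ℝ) ^ 15104

/-! ## The exceptional set -/

/-- RDH: `H` outside of the two cusps has a good rational approximation.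

Proof. LAT with `x = 48 t H`, `D = Z ^ 84`. The first case is excluded by `h1`. In the second case
`|r x - b| ≤ 2 Z ^ 84 / N`, and `h2` gives `|r x - b| > Z ^ 170 / (Z ^ 1000 N)`. -/
def RdhStmt : Prop :=
  ∀ (Z N : ℕ) (t : ℝ) (H : ℤ), 2 ≤ Z → Sz Z N →
    (¬ ∃ r : ℕ, 1 ≤ r ∧ r * Z ^ 84 ≤ N ∧
      Nr (48 * t * (H : ℝ) * (r : ℝ)) (1 / ((Z : ℝ) ^ 84 * (N : ℝ)))) →
    (¬ ∃ r : ℕ, 1 ≤ r ∧ r ≤ 2 * N * Z ^ 84 ∧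
      Nr (48 * t * (H : ℝ) * (r : ℝ)) ((Z : ℝ) ^ 170 / ((Z : ℝ) ^ 1000 * (N : ℝ)))) →
    ∃ (r : ℕ) (b : ℤ), Odd r ∧ N < r * Z ^ 84 ∧ r ≤ 2 * N * Z ^ 84 ∧ Int.gcd b (r : ℤ) = 1 ∧
      (r : ℝ) * |48 * t * (H : ℝ) - (b : ℝ) / (r : ℝ)| ≤ 2 * (Z : ℝ) ^ 84 / (N : ℝ) ∧
      (Z : ℝ) ^ 170 / ((Z : ℝ) ^ 1000 * (N : ℝ)) ≤ (r : ℝ) * |48 * t * (H : ℝ) - (b : ℝ) / (r : ℝ)|

/-- CRN: the corner of the cell. Proof. `r |β - β'| ≤ 2 N Z ^ 84 / Z ^ 130216`, and this is at most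
`Z ^ 84 / N` and at most `Z ^ 166 / (Z ^ 1000 N)` (`N ^ 2 ≤ 4 Z ^ 128000`), `Z ^ 170 ≥ 2 Z ^ 166`. -/
def CrnStmt : Prop :=
  ∀ (Z N r : ℕ) (b : ℤ) (β β' : ℝ), 2 ≤ Z → Sz Z N → Odd r → N < r * Z ^ 84 →
    r ≤ 2 * N * Z ^ 84 → Int.gcd b (r : ℤ) = 1 → (r : ℝ) * |β| ≤ 2 * (Z : ℝ) ^ 84 / (N : ℝ) →
    (Z : ℝ) ^ 170 / ((Z : ℝ) ^ 1000 * (N : ℝ)) ≤ (r : ℝ) * |β| →
    |β - β'| ≤ 1 / (Z : ℝ) ^ 130216 → ParR Z N r b β' ∧ ParR Z N r 1 β'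

/-- LPZ: the Lipschitz bound. Proof. `LpsStmt` with the bound `2 Z ^ 1000` for the primes,
`M = Z ^ 1085`: `|S| (2 M + 1) 2 Z ^ 1000 |β - β'| N ^ 3 / √r`, `1 / √r ≤ (Z ^ 84 / N) ^ (1/2)`,
`N ^ 3 / √r ≤ N ^ (5/2) Z ^ 42 ≤ 6 Z ^ 160042`: at most
`|S| 3 Z ^ 1085 · 2 Z ^ 1000 · 6 Z ^ 160042 / Z ^ 130216 = 36 |S| Z ^ 31911`. -/
def LpzStmt : Prop :=
  ∃ Z₀ : ℕ, ∀ Z : ℕ, Z₀ ≤ Z → ∀ (N r : ℕ) (S : Finset ℕ) (ψ : ℕ → ℂ) (v : ℕ → ℤ) (u : ℤ)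
    (β β' : ℝ), Sz Z N → ParS Z S → Odd r → N < r * Z ^ 84 → (∀ μ ∈ S, ‖ψ μ‖ ≤ 1) →
    |β - β'| ≤ 1 / (Z : ℝ) ^ 130216 →
      ‖PS N r (Z ^ 1085) S ψ v β u - PS N r (Z ^ 1085) S ψ v β' u‖ ≤
        (S.card : ℝ) * (Z : ℝ) ^ 31917

/-- the number of bad `u`, the moment inequality MMN in the form of block M -/
def MmnStatement : Prop :=
  ∀ l : ℕ, 1 ≤ l → ∃ C : ℝ, 0 < C ∧ ∀ (r P₀ M : ℕ) (S : Finset ℕ) (v : ℕ → ℤ)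
    (a : ℕ → ℤ → ℂ) (A₁ A₂ K : ℝ), 1 ≤ r → (∀ p ∈ S, p.Prime ∧ p ≤ P₀ ∧ ¬ p ∣ r) →
    2 * l * M ^ 2 * P₀ ^ (2 * l - 1) < r → (∀ p ∈ S, (r : ℤ) ∣ (p : ℤ) * v p - 1) →
    0 ≤ A₁ → 0 ≤ A₂ → 0 ≤ K →
    (∀ p ∈ S, ∑ m ∈ Finset.Icc (-(M : ℤ)) (M : ℤ), ‖a p m‖ ≤ A₁) →
    (∀ p ∈ S, ∑ m ∈ Finset.Icc (-(M : ℤ)) (M : ℤ), ‖a p m‖ ^ 2 ≤ A₂) →
    (∀ p ∈ S, 2 * (2 * (M : ℝ) / (p : ℝ) + 1) ≤ K) →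
    ∑ u ∈ Finset.range r, ‖∑ p ∈ S, ∑ m ∈ (Finset.Icc (-(M : ℤ)) (M : ℤ)).filter
        (fun m : ℤ => ¬ (p : ℤ) ∣ m), a p m * ee (-((((u : ℤ) * v p * m ^ 2 : ℤ) : ℝ) / (r : ℝ)))‖ ^
        (2 * l) ≤
      C * (r : ℝ) * ((S.card : ℝ) * A₂ * K + A₁ ^ 2) ^ l

/-- BDU: the number of bad `u`.

Proof. `MmnStatement` with `l = 31`, `P₀ = 2 L`, `M = Z ^ 1085`, the set `S'` of the `μ ∈ S` which do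
not divide `r`, `a μ m = ψ μ (GS r μ 0 / GS r 1 0) cf N r (μ β) m` (`GunStmt`: the quotient has norm
`1`), `A₁ = 3 √N Z ^ 542`, `A₂ = N` (`SzzStmt`), `K = 6 Z ^ 85`. The condition:
`62 Z ^ 2170 2 ^ 61 Z ^ 61000 < r`, as `r > N / Z ^ 84 ≥ Z ^ 63916`. `|S'| ≤ |S| ≤ Z ^ 1000`
(`S ⊂ (L, 2 L]`), so `|S'| A₂ K + A₁ ^ 2 ≤ 6 N Z ^ 1085 + 9 N Z ^ 1084 ≤ 7 N Z ^ 1085 ≤ Z ^ 65086`, and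
the sum over `u` is at most `C r Z ^ (31 · 65086) = C r Z ^ 2017666`. Every bad `u` contributes at least
`(|S| Z ^ 31917) ^ 62 ≥ (Z ^ 32916) ^ 62 = Z ^ 2040792`; `2040792 - 2017666 = 23126`. -/
def BduStmt : Prop :=
  ∃ Z₀ : ℕ, ∀ Z : ℕ, Z₀ ≤ Z → ∀ (N r : ℕ) (b : ℤ) (β : ℝ) (S : Finset ℕ) (ψ : ℕ → ℂ) (v : ℕ → ℤ),
    Sz Z N → ParS Z S → ParR Z N r b β → (∀ μ ∈ S, ‖ψ μ‖ ≤ 1) →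
    (∀ μ ∈ S, ¬ μ ∣ r → (r : ℤ) ∣ (μ : ℤ) * v μ - 1) →
    (((Finset.range r).filter (fun u : ℕ => (S.card : ℝ) * (Z : ℝ) ^ 31917 ≤
      ‖PS N r (Z ^ 1085) S ψ v β (u : ℤ)‖)).card : ℝ) * (Z : ℝ) ^ 23120 ≤ (r : ℝ)

/-- BCD: the number of bad cells.

Proof. `ParR Z N r 1 (j / Z ^ 130216)` gives `r ≤ 2 N Z ^ 84 ≤ 4 Z ^ 64084` and
`r |j| N ≤ 3 Z ^ 84 Z ^ 130216`, so `|j| ≤ 3 Z ^ 66300 / r`: for fixed `r` at most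
`6 Z ^ 66300 / r + 1` values `j`. For fixed `r, j, ψ` at most `r / Z ^ 23120` values `u` (BDU with
`v = vv r`; `r ∣ μ vv r μ - 1` for primes `μ` which do not divide `r`). Total at most
`∑_r (6 Z ^ 66300 + r) Z ^ 4250 / Z ^ 23120 ≤ 5 Z ^ 64084 · 7 Z ^ 66300 · Z ^ (4250 - 23120)
= 35 Z ^ 111514`. The set `B` is the filter of a product of `Finset.range`, `Finset.Icc`, `Ψ`,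
`Finset.range`. -/
def BcdStmt : Prop :=
  ∃ Z₀ : ℕ, ∀ Z : ℕ, Z₀ ≤ Z → ∀ (N : ℕ) (S : Finset ℕ) (Ψ : Finset (ℕ → ℂ)),
    Sz Z N → ParS Z S → (∀ ψ ∈ Ψ, ∀ μ ∈ S, ‖ψ μ‖ ≤ 1) → Ψ.card ≤ Z ^ 4250 →
    ∃ B : Finset (ℕ × ℤ × (ℕ → ℂ) × ℕ), (B.card : ℝ) ≤ (Z : ℝ) ^ 111520 ∧
      ∀ (r : ℕ) (j : ℤ) (ψ : ℕ → ℂ) (u : ℕ), ψ ∈ Ψ → u < r →
        ParR Z N r 1 ((j : ℝ) / (Z : ℝ) ^ 130216) →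
        (S.card : ℝ) * (Z : ℝ) ^ 31917 ≤
          ‖PS N r (Z ^ 1085) S ψ (vv r) ((j : ℝ) / (Z : ℝ) ^ 130216) (u : ℤ)‖ →
        (r, j, ψ, u) ∈ B

/-- COV: the covering of the exceptional set by bad cells.

Proof. RDH gives `r, b`; put `β = 48 t H - b / r` (so CRN with `β' = β` gives `ParR Z N r b β`), `u` the
inverse of `4 b` modulo `r`, `0 ≤ u < r` (`r` odd, `gcd (b, r) = 1`), `v = vv r`. By `PfzStmt` (block P; `√N ≤ 2 Z ^ 32000`)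
`|S| Z ^ 31920 < ‖PS β‖ + 2 |S| Z ^ 31918`. Let `j = ⌊β Z ^ 130216⌋`, `β' = j / Z ^ 130216`,
`|β - β'| ≤ δ`: by LPZ `‖PS β'‖ ≥ |S| (Z ^ 31920 - 2 Z ^ 31918 - Z ^ 31917) ≥ |S| Z ^ 31917`. CRN:
`ParR Z N r 1 β'`. So `(r, j, ψ, u) ∈ B`. `bb r u ≡ b` modulo `r`, so `48 t H - (bb r u / r + β')` is
an integer plus `β - β'`. -/
def CovStmt : Prop :=
  ∃ Z₀ : ℕ, ∀ Z : ℕ, Z₀ ≤ Z → ∀ (N : ℕ) (t : ℝ) (S : Finset ℕ) (Ψ : Finset (ℕ → ℂ))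
    (B : Finset (ℕ × ℤ × (ℕ → ℂ) × ℕ)) (H : ℤ) (ψ : ℕ → ℂ),
    Sz Z N → ParS Z S → (∀ ψ ∈ Ψ, ∀ μ ∈ S, ‖ψ μ‖ ≤ 1) →
    (∀ (r : ℕ) (j : ℤ) (ψ : ℕ → ℂ) (u : ℕ), ψ ∈ Ψ → u < r →
        ParR Z N r 1 ((j : ℝ) / (Z : ℝ) ^ 130216) →
        (S.card : ℝ) * (Z : ℝ) ^ 31917 ≤
          ‖PS N r (Z ^ 1085) S ψ (vv r) ((j : ℝ) / (Z : ℝ) ^ 130216) (u : ℤ)‖ →
        (r, j, ψ, u) ∈ B) →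
    (¬ ∃ r : ℕ, 1 ≤ r ∧ r * Z ^ 84 ≤ N ∧
      Nr (48 * t * (H : ℝ) * (r : ℝ)) (1 / ((Z : ℝ) ^ 84 * (N : ℝ)))) →
    (¬ ∃ r : ℕ, 1 ≤ r ∧ r ≤ 2 * N * Z ^ 84 ∧
      Nr (48 * t * (H : ℝ) * (r : ℝ)) ((Z : ℝ) ^ 170 / ((Z : ℝ) ^ 1000 * (N : ℝ)))) →
    ψ ∈ Ψ → (S.card : ℝ) * (Z : ℝ) ^ 31920 < ‖∑ μ ∈ S, ψ μ * th N (48 * t * (μ : ℝ) * (H : ℝ))‖ →
    ∃ x ∈ B, Nr (48 * t * (H : ℝ) -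
      ((bb x.1 x.2.2.2 : ℝ) / (x.1 : ℝ) + (x.2.1 : ℝ) / (Z : ℝ) ^ 130216)) (1 / (Z : ℝ) ^ 130216)

/-- EXC: the exceptional set is small.

Proof. `B` from BCD. The set is contained in the union of the sets of CL1, CL2 and the set of the `H`
of COV, which is contained in the union over `x ∈ B` of the cells of CHC: at most
`Z ^ 111520 Z ^ 15104 = Z ^ 126624` elements, `3 Z ^ 164 Z ^ 126624 ≤ 8 Z ^ 127002`. -/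
def ExcStmt : Prop :=
  ∃ Z₀ : ℕ, ∀ Z : ℕ, Z₀ ≤ Z → ∀ (N Q : ℕ) (a : ℤ) (t : ℝ) (S : Finset ℕ) (Ψ : Finset (ℕ → ℂ)),
    ParB Z N Q a t → ParS Z S → (∀ ψ ∈ Ψ, ∀ μ ∈ S, ‖ψ μ‖ ≤ 1) → Ψ.card ≤ Z ^ 4250 →
    (((Hs (Xz Z)).filter (fun H : ℤ => ∃ ψ ∈ Ψ, (S.card : ℝ) * (Z : ℝ) ^ 31920 <
      ‖∑ μ ∈ S, ψ μ * th N (48 * t * (μ : ℝ) * (H : ℝ))‖)).card : ℝ) * (Z : ℝ) ^ 164 ≤ (Xz Z : ℝ)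

/-! ## The assembly of part B -/

/-- V1 (block V): the second moment -/
def V1Statement : Prop :=
  ∃ Z₀ : ℕ, ∀ Z : ℕ, Z₀ ≤ Z → ∀ (N Q μ : ℕ) (a : ℤ) (t : ℝ), ParB Z N Q a t →
    Z ^ 1000 < μ → μ ≤ 2 * Z ^ 1000 →
    ∑ H ∈ Hs (Xz Z), ‖th N (48 * t * (μ : ℝ) * (H : ℝ))‖ ^ 2 ≤
      (N : ℝ) * (Xz Z : ℝ) * (Z : ℝ) ^ 3

/-- V2 (block V): the divisors -/
def V2Statement : Prop :=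
  ∃ Z₀ : ℕ, ∀ Z : ℕ, Z₀ ≤ Z → ∀ (N : ℕ) (Y : ℤ → ℝ), Sz Z N → (∀ H : ℤ, 0 ≤ Y H) →
    ∑ p ∈ Bx Z N, Y (p.1 * p.2) ≤ (Z : ℝ) * ∑ H ∈ Hs (Xz Z), Y H

/-- V3 (block V): the grid -/
def V3Statement : Prop :=
  ∃ Z₀ : ℕ, ∀ Z : ℕ, Z₀ ≤ Z → ∃ Ψ : Finset (ℕ → ℂ), Ψ.card ≤ Z ^ 4250 ∧
    (∀ ψ ∈ Ψ, ∀ μ, ‖ψ μ‖ ≤ 1) ∧
    ∀ α β l : ℝ, 0 ≤ l → l * (Z : ℝ) ^ 2000 ≤ 100 * (Z : ℝ) ^ 2 → ∃ ψ ∈ Ψ, ∀ μ : ℕ,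
      μ ≤ 2 * Z ^ 1000 → ‖ps α β l μ - ψ μ‖ ≤ 1 / (Z : ℝ) ^ 81

/-- UMN (block U): the Weyl sum and the `U²` norm -/
def UmnStatement : Prop :=
  ∃ Z₀ : ℕ, ∀ Z : ℕ, Z₀ ≤ Z → ∀ (N : ℕ) (t ξ : ℝ), Sz Z N →
    ‖W 4 N t ξ‖ ^ 4 ≤ (Z : ℝ) ^ 64004 * (U (f N t 0) 1 1 + 1)

/-- UFN (block U): the amplified inequality -/
def UfnStatement : Prop :=
  ∃ (C : ℝ) (Z₀ : ℕ), 0 < C ∧ ∀ Z : ℕ, Z₀ ≤ Z → ∀ (N : ℕ) (t : ℝ) (S : Finset ℕ), Sz Z N →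
    (∀ μ ∈ S, Z ^ 1000 < μ ∧ μ ≤ 2 * Z ^ 1000) →
    (S.card : ℝ) * U (f N t 0) 1 1 ≤ 8 * (Z : ℝ) ^ 1000 *
      (C * (S.card : ℝ) * (N : ℝ) ^ 2 + 1 + ∑ p ∈ Bx Z N,
        ‖∑ μ ∈ S, ps (16 * t * (p.1 : ℝ) ^ 3 * (p.2 : ℝ)) (16 * t * (p.1 : ℝ) * (p.2 : ℝ) ^ 3)
          (4 * Real.pi * (p.1 : ℝ) ^ 2 / (N : ℝ) ^ 2) μ *
          th N (48 * t * (μ : ℝ) * ((p.1 * p.2 : ℤ) : ℝ))‖)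

/-- YSM: the sum over `H` of the maximum over the grid, and of the error term.

Proof. Let `s = S.card`, `X = Xz Z`, `T H = ∑_{μ ∈ S} ‖th N (48 t μ H)‖`. By V1 and Cauchy-Schwarz
`∑_H T H ^ 2 ≤ s ∑_μ ∑_H ‖th‖ ^ 2 ≤ s ^ 2 N X Z ^ 3`, `∑_H T H ≤ (2 X) ^ (1/2) s (N X Z ^ 3) ^ (1/2)
≤ 2 s X Z ^ 32002` (`N ≤ 2 Z ^ 64000`). Let `Y` be a function with `0 ≤ Y H ≤ T H` (here the maximum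
over `ψ ∈ Ψ` of `‖∑ ψ μ th‖`, or `0`). `Y H ≤ s Z ^ 31920` outside of the set `E` of EXC, and
`∑_{H ∈ E} Y H ≤ |E| ^ (1/2) (∑ T ^ 2) ^ (1/2) ≤ (X / Z ^ 164) ^ (1/2) s (2 Z ^ 64003 X) ^ (1/2)
≤ 2 s X Z ^ 31920`. Total: `∑_H (Y H + Z ^ (-81) T H) ≤ 2 X s Z ^ 31920 + 2 s X Z ^ 31920 +
2 s X Z ^ 31921 ≤ s X Z ^ 31922`. -/
def YsmStmt : Prop :=
  ∃ Z₀ : ℕ, ∀ Z : ℕ, Z₀ ≤ Z → ∀ (N Q : ℕ) (a : ℤ) (t : ℝ) (S : Finset ℕ) (Ψ : Finset (ℕ → ℂ)),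
    ParB Z N Q a t → ParS Z S → (∀ ψ ∈ Ψ, ∀ μ, ‖ψ μ‖ ≤ 1) → Ψ.card ≤ Z ^ 4250 →
    ∃ Y : ℤ → ℝ, (∀ H : ℤ, 0 ≤ Y H) ∧
      (∀ H : ℤ, ∀ ψ ∈ Ψ, ‖∑ μ ∈ S, ψ μ * th N (48 * t * (μ : ℝ) * (H : ℝ))‖ +
        (1 / (Z : ℝ) ^ 81) * ∑ μ ∈ S, ‖th N (48 * t * (μ : ℝ) * (H : ℝ))‖ ≤ Y H) ∧
      ∑ H ∈ Hs (Xz Z), Y H ≤ (S.card : ℝ) * (Xz Z : ℝ) * (Z : ℝ) ^ 31922

/-- PRZ: there are sets of primes. Proof: `PruStmt` (landed: `Pool.Agent.VM5.H39.pru VM.H39.prm VM.H29.pdv`,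
see Helper98_VM5/FinW.lean) with `D = Z ^ 1000`, `u = 1`,
`A = 1`, `ε = 1 / 2000`: `D ^ (1 - ε) = Z ^ 999.5`; or Chebyshev / Bertrand from Mathlib. -/
def PrzStmt : Prop := ∃ Z₀ : ℕ, ∀ Z : ℕ, Z₀ ≤ Z → ∃ S : Finset ℕ, ParS Z S

/-- PTB: part B.

Proof. `S` from PRZ, `Ψ` from V3, `Y` from YSM. In UFN: `l = 4 π h ^ 2 / N ^ 2 ≤ 16 π Z ^ 2 / L ^ 2`
for `(h, k) ∈ Bx Z N` (`|h| L ≤ 2 Z N`), `ψ` from V3: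
`‖∑ ps μ th‖ ≤ ‖∑ ψ μ th‖ + Z ^ (-81) ∑ ‖th‖ ≤ Y (h k)`. V2:
`∑_{Bx} ≤ Z ∑_H Y H ≤ |S| X Z ^ 31923`. So (`|S| > 0`, divide)
`U ≤ 8 Z ^ 1000 (C N ^ 2 + 1 + X Z ^ 31923) ≤ Z ^ 159926` (`X = 8 Z ^ 127002`,
`1000 + 127002 + 31923 = 159925`), and UMN: `‖W‖ ^ 4 ≤ Z ^ 64004 (Z ^ 159926 + 1) ≤ Z ^ 223931`,
`223931 + 66 = 223997`. -/
def PtbStmt : Prop := PartB

/-- FIN: the final theorem from the parts A and B.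

Proof. Let `ε > 0` (w.l.o.g. `ε ≤ 1`). For `N < N₀` trivial (`‖W‖ ≤ N`). Otherwise let
`Z = ⌊N ^ (1 / 64000)⌋`, so `Z ^ 64000 ≤ N < (Z + 1) ^ 64000 ≤ 2 Z ^ 64000` for large `Z`. Dirichlet:
`(b, u) = 1`, `1 ≤ u ≤ P = Z ^ 144100`, `|t - b / u| ≤ 1 / (u P)`. If `u ≥ Z ^ 111900`: PartB with
`Q = u`, `a = b`: `‖W‖ ^ 4 ≤ Z ^ (224000 - 66)`, so `‖W‖ ≤ Z ^ (56000 - 16) ≤ N ^ (7/8 - 1/4000)`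
(`56000 - 16 = 64000 (7/8 - 1/4000)`). If `u < Z ^ 111900`: PartA with `ε / 3`:
`‖W‖ ≤ C (N u) ^ (ε/3) (N u ^ (-1/4) + u ^ (1/2) + N ^ 2 P ^ (-1/2))`, `(N u) ^ (ε/3) ≤ N ^ ε`
(`u ≤ N ^ 2`), `u ^ (1/2) ≤ Z ^ 55950`, `N ^ 2 P ^ (-1/2) ≤ 4 Z ^ (128000 - 72050)`, both
`≤ Z ^ 55984`; and `q ≤ 2 u`: if `a / q = b / u` then `q = u`, otherwise
`1 / (q u) ≤ |a / q - b / u| ≤ 1 / q ^ 2 + 1 / (u P)` and `1 / (u P) ≤ 1 / (2 q u)` (`q ≤ N`,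
`2 N ≤ P`), so `1 / (2 q u) ≤ 1 / q ^ 2`. So `N u ^ (-1/4) ≤ 2 N q ^ (-1/4)`. -/
def FinalStmt : Prop := PartA → PartB → FinStmt

end Pool.Agent.K4W
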