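import Pool.Agent.K4W.Defs

/-!
# K4W, part M: the moment of order `2 l` over the numerators `u` (paper: team-store/K4.md, B6)

GOAL: `MmnStmt`.  Everything here is elementary (finite sums, congruences).
Rows: table `k4w`, ord 450-460.  Deliver `Pool/Agent/HelperNN_K4W/XXX.lean`,
`import Pool.Agent.K4W.StmtsM`, `theorem Pool.Agent.K4W.HNN.xxx (hypotheses in the order of the
column uses) : XxxStmt`.
-/

set_option autoImplicit false

namespace Pool.Agent.K4W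

open Pool.Agent.Helper69_Weyl (ee W)

/-- the signs: `1` for `i < l`, `-1` for `l ≤ i` -/
def sg (l : ℕ) (i : Fin (2 * l)) : ℤ := if (i : ℕ) < l then 1 else -1

/-- the integers `m`, `|m| ≤ M`, not divisible by `q` -/
noncomputable def Tm (M q : ℕ) : Finset ℤ :=
  (Finset.Icc (-(M : ℤ)) (M : ℤ)).filter (fun m => ¬ (q : ℤ) ∣ m)

/-- **MEX** (expansion of the moment; medium).  For a finite family of frequencies `φ x` modulo `r`.

Proof.  `F u = ∑ x ∈ X, w x ee (- u φ x / r)`.  In `ℂ`: `‖F u‖ ^ (2 l) = (F u) ^ l (conj (F u)) ^ l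
= ∏ i : Fin (2 l), G i`, `G i = F u` if `i < l`, `conj (F u)` otherwise
(`Fin.prod_univ_add` after a cast, or `Finset.prod_ite` and the cardinality of the filters), and
`G i = ∑ x ∈ X, g i x` with `g i x = w x ee (- u φ x / r)` resp. `conj (w x) ee (u φ x / r)`
(`conj (ee y) = ee (- y)`, see `Helper69_Weyl.Moments`).
`Finset.prod_univ_sum`: `∏ i, ∑ x ∈ X, g i x = ∑ x ∈ piFinset (fun _ => X), ∏ i, g i (x i)`, and
`∏ i, g i (x i) = ω x ee (- u (∑ i, sg l i φ (x i)) / r)`, `ω x = ∏ i, (w (x i) or its conjugate)`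
(`ee_sum`), `‖ω x‖ = ∏ i, ‖w (x i)‖`.  Exchange the sums; for an integer `n` the sum
`∑ u ∈ range r, ee (- u n / r)` is `r` if `r ∣ n` and `0` otherwise (geometric sum: `z = ee (- n / r)`,
`z ^ r = 1`, and `z = 1` iff `r ∣ n`, `ee_eq_one_iff`, `ee_natCast_mul`).  So the left side is the
sum of `r ω x` over the `x` with `r ∣ ∑ i, sg l i φ (x i)`; take norms (the left side is a
nonnegative real number, equal to the norm of its complex version). -/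
def MexStmt : Prop :=
  ∀ (l r : ℕ) (X : Finset (ℕ × ℤ)) (w : ℕ × ℤ → ℂ) (φ : ℕ × ℤ → ℤ), 1 ≤ r →
    ∑ u ∈ Finset.range r, ‖∑ x ∈ X, w x * ee (-((((u : ℤ) * φ x : ℤ) : ℝ) / (r : ℝ)))‖ ^ (2 * l) ≤
      (r : ℝ) * ∑ x ∈ (Fintype.piFinset (fun _ : Fin (2 * l) => X)).filter
        (fun x => (r : ℤ) ∣ ∑ i, sg l i * φ (x i)), ∏ i, ‖w (x i)‖

/-- **MZD** (the integer is zero; easy, no primes needed).

Proof.  Let `D = ∑ i, s i m i ^ 2 ∏_{k ≠ i} p k`.  For every `i`: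
`(∏ k, p k) (v (p i)) = (p i v (p i)) ∏_{k ≠ i} p k ≡ ∏_{k ≠ i} p k (mod r)`
(`Finset.mul_prod_erase`), so `D ≡ (∏ k, p k) ∑ i, s i v (p i) m i ^ 2 ≡ 0 (mod r)`.  And
`|D| ≤ ∑ i, |m i| ^ 2 P₀ ^ (n - 1) ≤ n M ^ 2 P₀ ^ (n - 1) < r`
(`Finset.abs_sum_le_sum_abs`, `Finset.prod_le_pow_card`, the card of `univ.erase i` is `n - 1`).
So `D = 0` (`Int.eq_zero_of_abs_lt_dvd`). -/
def MzdStmt : Prop :=
  ∀ (n r M P₀ : ℕ) (p : Fin n → ℕ) (s m : Fin n → ℤ) (v : ℕ → ℤ),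
    (∀ i, p i ≤ P₀) → (∀ i, (r : ℤ) ∣ (p i : ℤ) * v (p i) - 1) → (∀ i, s i = 1 ∨ s i = -1) →
    (∀ i, |m i| ≤ (M : ℤ)) → n * M ^ 2 * P₀ ^ (n - 1) < r →
    (r : ℤ) ∣ ∑ i, s i * (v (p i) * m i ^ 2) →
      ∑ i, s i * m i ^ 2 * ∏ k ∈ Finset.univ.erase i, (p k : ℤ) = 0

/-- **MFP** (the fibres; medium).

Proof.  `B = {i : p i = q}`, `j = #B`, `R = ∏ k ∈ univ \ B, p k`.  If `B = ∅`, the sum is `0`.
Let `j ≥ 1`.  For `i ∈ B`: `∏_{k ≠ i} p k = q ^ (j - 1) R` (split `univ.erase i` in `B.erase i` and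
the complement of `B`).  For `i ∉ B`: `B ⊆ univ.erase i`, so `q ^ j` divides `∏_{k ≠ i} p k`
(`Finset.prod_dvd_prod_of_subset`, `∏ k ∈ B, p k = q ^ j`).  Hence `q ^ j` divides
`q ^ (j - 1) R ∑ i ∈ B, s i m i ^ 2`, so `q ∣ R ∑ i ∈ B, s i m i ^ 2`; `q` does not divide `R`: it is
prime and the `p k`, `k ∉ B`, are primes different from `q`
(`Prime.dvd_finset_prod_iff`, `Nat.prime_dvd_prime_iff_eq`). -/
def MfpStmt : Prop :=
  ∀ (n : ℕ) (p : Fin n → ℕ) (s m : Fin n → ℤ) (q : ℕ), (∀ i, (p i).Prime) → q.Prime →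
    ∑ i, s i * m i ^ 2 * ∏ k ∈ Finset.univ.erase i, (p k : ℤ) = 0 →
      (q : ℤ) ∣ ∑ i ∈ Finset.univ.filter (fun i => p i = q), s i * m i ^ 2

/-- **MSQ** (square roots modulo a prime in an interval; easy).

Proof.  If the set is empty: trivial (the right side is nonnegative).  Let `m₀` be an element.  For
every element `m`, `q ∣ m ^ 2 - m₀ ^ 2 = (m - m₀) (m + m₀)`, so `m ≡ m₀` or `m ≡ - m₀`
modulo `q`.  For every integer `c` the number of the `m ∈ [- M, M]` with `m ≡ c (mod q)` is at most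
`2 M / q + 1`: for instance `m ↦ (m + M) / q` (integer part) is injective on this set (two elements
with the same quotient differ by less than `q` and are congruent modulo `q`) with values in
`[0, 2 M / q]`; and the integer part of `2 M / q` is at most the real quotient. -/
def MsqStmt : Prop :=
  ∀ (M q : ℕ) (t : ℤ), q.Prime →
    ((((Finset.Icc (-(M : ℤ)) (M : ℤ)).filter (fun m => (q : ℤ) ∣ m ^ 2 - t)).card : ℕ) : ℝ) ≤
      2 * (2 * (M : ℝ) / (q : ℝ) + 1)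

/-- **MCO** (summing over one coordinate; easy).

Proof.  Write the right side as a sum over `piFinset (update t i₀ {0}) ×ˢ t i₀`
(`Finset.sum_product'`); bijection (`Finset.sum_nbij'`): `m ↦ (update m i₀ 0, m i₀)`, inverse
`(m, x) ↦ update m i₀ x` (`Function.update_idem`, `Function.update_eq_self`; in
`piFinset (update t i₀ {0})` the coordinate `i₀` is `0`). -/
def McoStmt : Prop :=
  ∀ (n : ℕ) (t : Fin n → Finset ℤ) (i₀ : Fin n) (F : (Fin n → ℤ) → ℝ),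
    ∑ m ∈ Fintype.piFinset t, F m =
      ∑ m ∈ Fintype.piFinset (Function.update t i₀ {0}), ∑ x ∈ t i₀, F (Function.update m i₀ x)

/-- **MPB** (two coordinates; uses MSQ; medium).

Proof.  `c x c y ≤ (c x ^ 2 + c y ^ 2) / 2`.  For a fixed `x`, the condition on `y` is
`q ∣ y ^ 2 - t'` with `t' = - s' (s x ^ 2 + t)` (multiply by `s'`, `s' ^ 2 = 1`), so MSQ gives at most
`2 (2 M / q + 1) ≤ K` values `y`; hence `∑_{x, y} [..] c x ^ 2 ≤ K ∑ c x ^ 2 ≤ K A₂`, and in the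
same way for `c y ^ 2` (exchange the sums, `s ^ 2 = 1`).  (`K ≥ 0` and `A₂ ≥ 0` follow from the
hypotheses.) -/
def MpbStmt : Prop :=
  ∀ (M q : ℕ) (s s' t : ℤ) (c : ℤ → ℝ) (A₂ K : ℝ), q.Prime → (s = 1 ∨ s = -1) →
    (s' = 1 ∨ s' = -1) → (∀ m, 0 ≤ c m) → ∑ m ∈ Tm M q, c m ^ 2 ≤ A₂ →
    2 * (2 * (M : ℝ) / (q : ℝ) + 1) ≤ K →
      ∑ x ∈ Tm M q, ∑ y ∈ Tm M q,
        (if (q : ℤ) ∣ s * x ^ 2 + s' * y ^ 2 + t then c x * c y else 0) ≤ A₂ * K

/-- **MFC** (one fibre with at least two elements; uses MCO, MPB; medium).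

Proof.  Take `i₀ ≠ i₁` in `B`.  Apply MCO with `i₀` and then with `i₁` (the set of the coordinate
`i₁` is not changed by the first step): the left side is
`∑ m ∈ piFinset t', ∑ x ∈ Tm, ∑ y ∈ Tm, F (update (update m i₁ y) i₀ x)`, where `t' i = Tm` for
`i ∈ B \ {i₀, i₁}` and `t' i = {0}` otherwise.  Here
`∑ i ∈ B, s i m' i ^ 2 = s i₀ x ^ 2 + s i₁ y ^ 2 + t` with
`t = ∑ i ∈ B \ {i₀, i₁}, s i m i ^ 2`, and the product is
`c x c y ∏ i ∈ B \ {i₀, i₁}, c (m i)`.  MPB: the inner double sum is at most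
`A₂ K ∏ i ∈ B \ {i₀, i₁}, c (m i)`.  Finally
`∑ m ∈ piFinset t', ∏ i ∈ B \ {i₀, i₁}, c (m i) = ∏ i, ∑ x ∈ t' i, g i x`, `g i x = c x` for
`i ∈ B \ {i₀, i₁}` and `1` otherwise (`Finset.prod_univ_sum`), and this is
`(∑ x ∈ Tm, c x) ^ (#B - 2) ≤ A₁ ^ (#B - 2)`. -/
def MfcStmt : Prop :=
  ∀ (n M q : ℕ) (B : Finset (Fin n)) (s : Fin n → ℤ) (c : ℤ → ℝ) (A₁ A₂ K : ℝ), q.Prime →
    (∀ i, s i = 1 ∨ s i = -1) → (∀ m, 0 ≤ c m) → ∑ m ∈ Tm M q, c m ≤ A₁ →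
    ∑ m ∈ Tm M q, c m ^ 2 ≤ A₂ → 2 * (2 * (M : ℝ) / (q : ℝ) + 1) ≤ K → 2 ≤ B.card →
      ∑ m ∈ Fintype.piFinset (fun i => if i ∈ B then Tm M q else {0}),
        (if (q : ℤ) ∣ ∑ i ∈ B, s i * m i ^ 2 then ∏ i ∈ B, c (m i) else 0) ≤
          A₁ ^ (B.card - 2) * (A₂ * K)

/-- **MFA** (a fibre with one element; easy).

Proof.  `B = {i}`: the condition is `q ∣ s i m i ^ 2`, so `q ∣ m i` (`s i` is a unit, `q` is prime),
which is excluded for `m i ∈ Tm M q`.  So all the terms are `0`. -/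
def MfaStmt : Prop :=
  ∀ (n M q : ℕ) (B : Finset (Fin n)) (s : Fin n → ℤ) (c : ℤ → ℝ), q.Prime →
    (∀ i, s i = 1 ∨ s i = -1) → B.card = 1 →
      ∑ m ∈ Fintype.piFinset (fun i => if i ∈ B then Tm M q else {0}),
        (if (q : ℤ) ∣ ∑ i ∈ B, s i * m i ^ 2 then ∏ i ∈ B, c (m i) else 0) = 0

/-- **MPR** (product over the fibres; medium).  `g q m` depends only on the `m i` with `p i = q`.

Proof.  `I = univ.image p`, `t_q i = t i` if `p i = q`, `{0}` otherwise.  `Finset.prod_sum`: the right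
side is `∑ F ∈ I.pi (fun q => piFinset t_q), ∏ q ∈ I.attach, g q (F q _)`.  Bijection
(`Finset.sum_nbij'`): `m ↦ (fun q _ i => if p i = q then m i else 0)`, inverse
`F ↦ (fun i => F (p i) (mem_image_of_mem ..) i)`.  (In `piFinset t_q` the coordinates `i` with
`p i ≠ q` are `0`; so these are inverse to each other.)  The terms agree by the hypothesis on
`g` (`Finset.prod_attach`). -/
def MprStmt : Prop :=
  ∀ (n : ℕ) (p : Fin n → ℕ) (t : Fin n → Finset ℤ) (g : ℕ → (Fin n → ℤ) → ℝ),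
    (∀ q m m', (∀ i, p i = q → m i = m' i) → g q m = g q m') →
      ∑ m ∈ Fintype.piFinset t, ∏ q ∈ Finset.univ.image p, g q m =
        ∏ q ∈ Finset.univ.image p,
          ∑ m ∈ Fintype.piFinset (fun i => if p i = q then t i else {0}), g q m

/-- **MTP** (fixed primes `p i`; uses MZD, MFP, MFC, MFA, MPR; strong).

Proof.  Let `I = univ.image p`, `B_q = {i : p i = q}`, `j_q = #B_q ≥ 1` for `q ∈ I`.  For every `m`
in the left sum `|m i| ≤ M` and MZD (`s = sg l`, `n = 2 l`) and MFP give `q ∣ ∑ i ∈ B_q, s i m i ^ 2`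
for all `q ∈ I`.  With `g q m = if q ∣ ∑ i ∈ B_q, s i m i ^ 2 then ∏ i ∈ B_q, c q (m i) else 0`:
`∏ i, c (p i) (m i) = ∏ q ∈ I, ∏ i ∈ B_q, c q (m i) = ∏ q ∈ I, g q m`
(`Finset.prod_fiberwise_of_maps_to`).  All terms are nonnegative, so the left side is at most
`∑ m ∈ piFinset (fun i => Tm M (p i)), ∏ q ∈ I, g q m`, and MPR turns it into
`∏ q ∈ I, ∑ m ∈ piFinset (fun i => if p i = q then Tm M (p i) else {0}), g q m`
(rewrite `Tm M (p i)` as `Tm M q` and `p i = q` as `i ∈ B_q`).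
Case 1: some `i` has no `k ≠ i` with `p k = p i`.  Then `j_q = 1` for `q = p i`, the factor of `q` is `0`
by MFA, and the product is `0`.
Case 2: otherwise all `j_q ≥ 2`; by MFC the product is at most
`∏ q ∈ I, A₁ ^ (j_q - 2) (A₂ K) = A₁ ^ (∑ (j_q - 2)) (A₂ K) ^ #I`, and
`∑ q ∈ I, j_q = 2 l` (`Finset.card_eq_sum_card_fiberwise`), so `#I ≤ l` and
`∑ q ∈ I, (j_q - 2) = 2 l - 2 #I = 2 (l - #I)`. -/
def MtpStmt : Prop :=
  ∀ (l r M P₀ : ℕ) (p : Fin (2 * l) → ℕ) (v : ℕ → ℤ) (c : ℕ → ℤ → ℝ) (A₁ A₂ K : ℝ),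
    (∀ i, (p i).Prime ∧ p i ≤ P₀ ∧ (r : ℤ) ∣ (p i : ℤ) * v (p i) - 1 ∧
      ∑ m ∈ Tm M (p i), c (p i) m ≤ A₁ ∧ ∑ m ∈ Tm M (p i), c (p i) m ^ 2 ≤ A₂ ∧
      2 * (2 * (M : ℝ) / (p i : ℝ) + 1) ≤ K) → (∀ q m, 0 ≤ c q m) →
    2 * l * M ^ 2 * P₀ ^ (2 * l - 1) < r →
      ∑ m ∈ (Fintype.piFinset (fun i => Tm M (p i))).filter
        (fun m => (r : ℤ) ∣ ∑ i, sg l i * (v (p i) * m i ^ 2)), ∏ i, c (p i) (m i) ≤
        if ∀ i, ∃ k, k ≠ i ∧ p k = p i then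
          (A₂ * K) ^ (Finset.univ.image p).card * (A₁ ^ 2) ^ (l - (Finset.univ.image p).card)
        else 0

/-- **MCT** (number of the functions without simple values; medium).

Proof.  If every fibre of `p : Fin (2 l) → ℕ` over its image has at least two elements then
`2 #(image p) ≤ 2 l`.  So the left side is at most the sum over the sets `V ∈ S.powerset`, `#V ≤ l`,
and the `p` with `image p = V` (`Finset.sum_fiberwise_of_maps_to` for `p ↦ univ.image p`) of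
`x ^ #V y ^ (l - #V)`; these `p` are in `piFinset (fun _ => V)`, which has
`(#V) ^ (2 l) ≤ (2 l) ^ (2 l)` elements (for `l = 0` both sides are `1`).  And
`∑ V ∈ S.powerset, #V ≤ l, x ^ #V y ^ (l - #V) = ∑ B ∈ range (l + 1), (#S).choose B x ^ B y ^ (l - B)`
(`Finset.sum_powerset_apply_card` or `Finset.sum_card_slice`),
`(#S).choose B ≤ (#S) ^ B ≤ l.choose B (#S) ^ B` (`Nat.choose_le_pow`; `B ≤ l`), and the
binomial theorem `add_pow` for `(#S x + y) ^ l`. -/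
def MctStmt : Prop :=
  ∀ (l : ℕ) (S : Finset ℕ) (x y : ℝ), 0 ≤ x → 0 ≤ y →
    ∑ p ∈ Fintype.piFinset (fun _ : Fin (2 * l) => S),
      (if ∀ i, ∃ k, k ≠ i ∧ p k = p i then
        x ^ (Finset.univ.image p).card * y ^ (l - (Finset.univ.image p).card) else 0) ≤
      ((2 * l : ℕ) : ℝ) ^ (2 * l) * ((S.card : ℝ) * x + y) ^ l

/-- **MMN** (GOAL; uses MEX, MTP, MCT; medium).

Proof.  Let `X` be the set of the pairs `(p, m)`, `p ∈ S`, `m ∈ Tm M p` (a filter of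
`S ×ˢ Icc (- M) M`), `w (p, m) = a p m`, `φ (p, m) = v p m ^ 2`; the inner double sum is
`∑ x ∈ X, w x ee (- u φ x / r)` (`u v p m ^ 2 = u φ`; `Finset.sum_sigma'`/`sum_product'` with filters).
MEX: the left side is at most `r` times the sum over the `x : Fin (2 l) → X` with
`r ∣ ∑ i, sg l i v (p i) m i ^ 2` of `∏ i, ‖a (p i) (m i)‖`.  The maps `x` are the pairs of a function
`p ∈ piFinset (fun _ => S)` and `m ∈ piFinset (fun i => Tm M (p i))` (`Finset.sum_nbij'` to a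
`Finset.sigma`, `x ↦ (fun i => (x i).1, fun i => (x i).2)`).  For a fixed `p`, MTP with
`c q m = ‖a q m‖` bounds the sum over `m`, and MCT with `x = A₂ K`, `y = A₁ ^ 2` the sum over
`p`.  (`A₂, K ≥ 0`.) -/
def MmnStmt : Prop :=
  ∀ (l r M P₀ : ℕ) (S : Finset ℕ) (v : ℕ → ℤ) (a : ℕ → ℤ → ℂ) (A₁ A₂ K : ℝ), 1 ≤ r →
    0 ≤ A₂ → 0 ≤ K →
    (∀ p ∈ S, p.Prime ∧ p ≤ P₀ ∧ (r : ℤ) ∣ (p : ℤ) * v p - 1 ∧
      ∑ m ∈ Tm M p, ‖a p m‖ ≤ A₁ ∧ ∑ m ∈ Tm M p, ‖a p m‖ ^ 2 ≤ A₂ ∧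
      2 * (2 * (M : ℝ) / (p : ℝ) + 1) ≤ K) →
    2 * l * M ^ 2 * P₀ ^ (2 * l - 1) < r →
      ∑ u ∈ Finset.range r, ‖∑ p ∈ S, ∑ m ∈ Tm M p,
          a p m * ee (-((((u : ℤ) * v p * m ^ 2 : ℤ) : ℝ) / (r : ℝ)))‖ ^ (2 * l) ≤
        ((2 * l : ℕ) : ℝ) ^ (2 * l) * (r : ℝ) * ((S.card : ℝ) * (A₂ * K) + A₁ ^ 2) ^ l

end Pool.Agent.K4W
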