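import Mathlib
import Pool.Agent.K4W.Defs
import Pool.Agent.Helper69_Weyl.Transfer

set_option autoImplicit false

/-! Statements of the squad K4W, block U (parts B2 and B3 of `K4.md`): the fourth power of the Weyl sum is
at most `Z ^ 64004 (U + 1)`, `U = U (f N t 0) 1 1` (row UMN), and `U` is bounded by sums over `μ` of theta
sums (row UFN).

Tools: `Helper69_Weyl.Basic` (`ee_add`, `ee_neg`, `ee_int`, `norm_ee`, `conj_ee`, `sum_ee_div`,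
`abel_bound`), `Helper69_Weyl.Transfer` (`kernel_bound`: the sum over `j < R` of
`‖∑ m ∈ Icc 1 M, ee (-(j / R) * m)‖` is at most `R (2 + log R)` for `M ≤ R`). -/

namespace Pool.Agent.K4W

open Pool.Agent.Helper69_Weyl (ee W)

/-- The quadruple product `f(x) conj f(x + b h) conj f(x + a m) f(x + a m + b h)`. -/
noncomputable def F4 (f : ℤ → ℂ) (a b : ℕ) (h m x : ℤ) : ℂ :=
  f x * (starRingEnd ℂ) (f (x + (b : ℤ) * h)) *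
    ((starRingEnd ℂ) (f (x + (a : ℤ) * m)) * f (x + (a : ℤ) * m + (b : ℤ) * h))

/-- The term of `U f a b` for `h` (`U f a b = ∑' h, Ut f a b h` by definition). -/
noncomputable def Ut (f : ℤ → ℂ) (a b : ℕ) (h : ℤ) : ℝ :=
  ∑ c ∈ Finset.range a,
    ‖∑' y : ℤ, f ((c : ℤ) + (a : ℤ) * y) *
      (starRingEnd ℂ) (f ((c : ℤ) + (a : ℤ) * y + (b : ℤ) * h))‖ ^ 2

/-- The autocorrelation. -/
noncomputable def AA (f : ℤ → ℂ) (h : ℤ) : ℂ := ∑' y : ℤ, f y * (starRingEnd ℂ) (f (y + h))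

/-- The part of `U (f N t 0) (2 μ) 2` for the pair `p = (h, k)`. -/
noncomputable def GG (N μ : ℕ) (t : ℝ) (p : ℤ × ℤ) : ℂ :=
  (ga N (2 * (p.2 : ℝ)) : ℂ) *
    (ps (16 * t * (p.1 : ℝ) ^ 3 * (p.2 : ℝ)) (16 * t * (p.1 : ℝ) * (p.2 : ℝ) ^ 3)
      (4 * Real.pi * (p.1 : ℝ) ^ 2 / (N : ℝ) ^ 2) μ *
      th N (48 * t * (μ : ℝ) * (p.1 : ℝ) * (p.2 : ℝ)))

/-- Row UGA (sum of a Gaussian over a progression).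

Proof. `(|x| / N - 1) ^ 2 ≥ 0` gives `x ^ 2 / N ^ 2 ≥ 2 |x| / N - 1`, so
`ga N x ≤ e^π q ^ |x|` with `q = exp (- 2 π / N) < 1`, and `e^π ≤ e^4 ≤ 55` (`Real.exp_one_lt_d9`). Put
`θ = d n + θ'`, `n = ⌊θ / d⌋`, `0 ≤ θ' < d`, and shift `s` by `n` (`Equiv.addRight`). For `s ≥ 0`,
`|d s + θ'| ≥ s`; for `s ≤ -1`, `|d s + θ'| = - d s - θ' ≥ - d (s + 1) ≥ - (s + 1)`. So the term is
at most `55 q ^ s` for `s ≥ 0` and at most `55 q ^ j` for `s = - (j + 1)` (`Summable.of_nat_of_neg_add_one`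
or `HasSum.of_nat_of_neg_add_one`): the sum is at most `110 / (1 - q)`, and
`1 / (1 - e^{-y}) ≤ 1 + 1 / y` for `y = 2 π / N` (`e^y ≥ 1 + y`): at most `110 (1 + N / 6) ≤ 200 N`. -/
def UgaStmt : Prop :=
  ∀ (N d : ℕ) (θ : ℝ), 1 ≤ N → 1 ≤ d →
    (Summable fun s : ℤ => ga N ((d : ℝ) * (s : ℝ) + θ)) ∧
      ∑' s : ℤ, ga N ((d : ℝ) * (s : ℝ) + θ) ≤ 200 * (N : ℝ)

/-- Row UGB (tails). Hypothesis UGA.

Proof. For `|x| ≥ R`: `ga N x = exp (- π x ^ 2 / (2 N ^ 2)) ^ 2`, one factor is at most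
`exp (- π R ^ 2 / (2 N ^ 2))`, the other at most `exp (- π x ^ 2 / (4 N ^ 2)) = ga (2 N) x`. UGA for
`2 N`. -/
def UgbStmt : Prop :=
  ∀ (N d : ℕ) (θ R : ℝ), 1 ≤ N → 1 ≤ d → 0 ≤ R →
    (Summable fun s : ℤ =>
      if R ≤ |(d : ℝ) * (s : ℝ) + θ| then ga N ((d : ℝ) * (s : ℝ) + θ) else 0) ∧
      ∑' s : ℤ, (if R ≤ |(d : ℝ) * (s : ℝ) + θ| then ga N ((d : ℝ) * (s : ℝ) + θ) else 0) ≤
        400 * (N : ℝ) * Real.exp (-(Real.pi * R ^ 2 / (2 * (N : ℝ) ^ 2)))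

/-- Row USM (the function `f N t ξ`). Hypothesis UGA (`d = 1`, `θ = 0`). -/
def UsmStmt : Prop :=
  (∀ (N : ℕ) (t ξ : ℝ) (x : ℤ), ‖f N t ξ x‖ = ga N (x : ℝ)) ∧
    (∀ (N : ℕ) (t ξ : ℝ), 1 ≤ N → Summable fun x : ℤ => ‖f N t ξ x‖) ∧
      ∀ (N : ℕ) (t ξ η : ℝ) (x : ℤ), f N t (ξ + η) x = f N t ξ x * ee (η * (x : ℝ))

/-- Row URE (sums over residue classes).

Proof. `Int.divModEquiv` (or the bijection `(c, y) ↦ c + a y` from `Fin a × ℤ` to `ℤ`); for the first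
claim `y ↦ c + a y` is injective. -/
def UreStmt : Prop :=
  ∀ (g : ℤ → ℂ) (a : ℕ), 1 ≤ a → Summable g →
    (∀ c : ℤ, Summable fun y : ℤ => g (c + (a : ℤ) * y)) ∧
      ∑' x : ℤ, g x = ∑ c ∈ Finset.range a, ∑' y : ℤ, g ((c : ℤ) + (a : ℤ) * y)

/-- Row UTR (absolute convergence of the triple sum).

Proof. `‖f‖ ≤ K` (a summable family is bounded). `‖F4‖ ≤ K ‖f x‖ ‖f (x + b h)‖ ‖f (x + a m)‖`. The map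
`((h, m), x) ↦ ((x, x + b h), x + a m)` is injective and `((u, v), w) ↦ ‖f u‖ ‖f v‖ ‖f w‖` is summable
(`Summable.mul_of_nonneg` twice); `Summable.comp_injective`, `Summable.of_nonneg_of_le`. -/
def UtrStmt : Prop :=
  ∀ (f : ℤ → ℂ) (a b : ℕ), 1 ≤ a → 1 ≤ b → (Summable fun x : ℤ => ‖f x‖) →
    Summable fun q : (ℤ × ℤ) × ℤ => ‖F4 f a b q.1.1 q.1.2 q.2‖

/-- Row UXA (expansion for one `h`). Hypotheses URE, UTR.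

Proof. Put `g y = f y * conj (f (y + b h))`, norm-summable (`f` is bounded), and so is
`y ↦ g (c + a y)` (URE for the norm, or an injective map). Then
`‖∑' y, g (c + a y)‖ ^ 2 = (∑' y, g (c + a y)) * conj (∑' y', g (c + a y'))
= ∑' y, ∑' m, g (c + a y) conj (g (c + a y + a m))` (for each `y` put `y' = y + m`), and
`g x * conj (g (x + a m)) = F4 f a b h m x`. Sum over `c < a`: by URE for `x ↦ ∑' m, F4 f a b h m x` (summable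
by UTR) this is `∑' x, ∑' m, F4 f a b h m x`; exchange the two sums (UTR restricted to `h`). -/
def UxaStmt : Prop :=
  ∀ (f : ℤ → ℂ) (a b : ℕ), 1 ≤ a → 1 ≤ b → (Summable fun x : ℤ => ‖f x‖) → ∀ h : ℤ,
    ((Ut f a b h : ℝ) : ℂ) = ∑' m : ℤ, ∑' x : ℤ, F4 f a b h m x

/-- Row UEX (expansion of `U`). Hypotheses UTR, UXA.

Proof. `p ↦ ∑' x, F4 f a b p.1 p.2 x` is summable over `ℤ × ℤ` (UTR, `Summable.prod`), so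
`h ↦ ∑' m, ∑' x, F4` is summable and the sum over `p` is the iterated sum; UXA. (`Complex.ofReal_tsum`,
`Complex.summable_ofReal`.) -/
def UexStmt : Prop :=
  ∀ (f : ℤ → ℂ) (a b : ℕ), 1 ≤ a → 1 ≤ b → (Summable fun x : ℤ => ‖f x‖) →
    (Summable fun h : ℤ => Ut f a b h) ∧
      ((U f a b : ℝ) : ℂ) = ∑' p : ℤ × ℤ, ∑' x : ℤ, F4 f a b p.1 p.2 x

/-- Row UCS (Cauchy's inequality over the residue classes). Hypotheses URE, UEX.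

Proof. `Ut f 1 b h = ‖∑' x, f x * conj (f (x + b h))‖ ^ 2 = ‖∑ c < a, ∑' y, (c + a y)‖ ^ 2 ≤
a * ∑ c < a, ‖...‖ ^ 2 = a * Ut f a b h` (URE, `Finset.inner_mul_le_norm_mul_norm` or
`sq_sum_le_card_mul_sum_sq`); sum over `h` (UEX: both sides are summable, `Summable.tsum_le_tsum`,
`tsum_mul_left`). -/
def UcsStmt : Prop :=
  ∀ (f : ℤ → ℂ) (a b : ℕ), 1 ≤ a → 1 ≤ b → (Summable fun x : ℤ => ‖f x‖) →
    U f 1 b ≤ (a : ℝ) * U f a b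

/-- Row UPO. Hypotheses UEX, UCS.

Proof. `U f a b = U f b a` (UEX and the bijection `Prod.swap`, `F4 f a b h m x = F4 f b a m h x`).
`U f 1 1 ≤ 2 U f 2 1 = 2 U f 1 2 ≤ 2 (2 μ) U f (2 μ) 2` (UCS twice). `0 ≤ U` : `tsum_nonneg`. -/
def UpoStmt : Prop :=
  ∀ (f : ℤ → ℂ) (μ : ℕ), 1 ≤ μ → (Summable fun x : ℤ => ‖f x‖) →
    0 ≤ U f (2 * μ) 2 ∧ U f 1 1 ≤ 4 * (μ : ℝ) * U f (2 * μ) 2

/-- Row UQI (the quadruple product at the centre `s`, an algebraic identity).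

Proof. With `A = μ h`, `B = k` the four points are `s - A - B`, `s - A + B`, `s + A - B`, `s + A + B`. Sum
of their squares: `4 (s ^ 2 + A ^ 2 + B ^ 2)`; and
`(s-A-B) ^ 4 - (s-A+B) ^ 4 - (s+A-B) ^ 4 + (s+A+B) ^ 4 = 48 A B s ^ 2 + 16 A ^ 3 B + 16 A B ^ 3`. Write all
the factors as `Complex.exp`, collect them with `← Complex.exp_add`, and compare the exponents with
`push_cast; ring`. -/
def UqiStmt : Prop :=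
  ∀ (N μ : ℕ) (t : ℝ) (h k s : ℤ),
    F4 (f N t 0) (2 * μ) 2 k h (s - (μ : ℤ) * h - k) =
      (ga N (2 * (k : ℝ)) : ℂ) *
        (ps (16 * t * (h : ℝ) ^ 3 * (k : ℝ)) (16 * t * (h : ℝ) * (k : ℝ) ^ 3)
          (4 * Real.pi * (h : ℝ) ^ 2 / (N : ℝ) ^ 2) μ *
          ((ga N (2 * (s : ℝ)) : ℂ) *
            ee (48 * t * (μ : ℝ) * (h : ℝ) * (k : ℝ) * (s : ℝ) ^ 2)))

/-- Row UTH (trivial bounds). Hypothesis UGA (`d = 2`, `θ = 0`). -/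
def UthStmt : Prop :=
  (∀ (N : ℕ) (x : ℝ), 1 ≤ N → ‖th N x‖ ≤ 200 * (N : ℝ)) ∧
    ∀ (N μ : ℕ) (α β : ℝ) (h : ℤ),
      ‖ps α β (4 * Real.pi * (h : ℝ) ^ 2 / (N : ℝ) ^ 2) μ‖ = ga N (2 * (μ : ℝ) * (h : ℝ))

/-- Row UEP (the series for `U (f N t 0) (2 μ) 2`). Hypotheses UGA, USM, UEX, UQI, UTH.

Proof. By UEX with `f = f N t 0`, `a = 2 μ`, `b = 2` and by `Prod.swap`,
`U = ∑' (h, k), ∑' x, F4 f (2 μ) 2 k h x`; in the inner sum put `x = s - μ h - k` (`Equiv.subRight` or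
similar), use UQI and take the factors out (`tsum_mul_left`): `GG N μ t (h, k)`. Bound: UTH. The bound is
summable: `UGA` with `d = 2` and with `d = 2 μ`, `Summable.mul_of_nonneg`. -/
def UepStmt : Prop :=
  ∀ (N μ : ℕ) (t : ℝ), 1 ≤ N → 1 ≤ μ →
    (Summable fun p : ℤ × ℤ => ga N (2 * (p.2 : ℝ)) * ga N (2 * (μ : ℝ) * (p.1 : ℝ))) ∧
    (∀ p : ℤ × ℤ, ‖GG N μ t p‖ ≤
      200 * (N : ℝ) * (ga N (2 * (p.2 : ℝ)) * ga N (2 * (μ : ℝ) * (p.1 : ℝ)))) ∧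
    (Summable fun p : ℤ × ℤ => ‖GG N μ t p‖) ∧
      ((U (f N t 0) (2 * μ) 2 : ℝ) : ℂ) = ∑' p : ℤ × ℤ, GG N μ t p

/-- Row UOU (outside of the box). Hypotheses UGA, UGB.

Proof. If `p = (h, k)` is not in `Bx Z N`, then `h = 0` or `k = 0` or `|k| > Z N` or
`|h| Z ^ 1000 > 2 Z N` (if the last fails, `|h| ≤ 2 Z N`). So with `w k = ga N (2 k)`,
`v h = ga N (2 μ h)`, both at most `1`, the term is at most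
`[h = 0] w k + [k = 0] v h + [2 Z N ≤ |2 k|] w k v h + [2 Z N ≤ |2 μ h|] w k v h`
(`|2 μ h| ≥ 2 Z ^ 1000 |h| > 4 Z N`). The four sums over `ℤ × ℤ` are products of sums over `ℤ`
(`Summable.tsum_mul_tsum_of_summable_norm` or `Summable.tsum_prod`): at most `200 N`, `200 N`, and twice
`400 N exp (- 2 π Z ^ 2) 200 N` (UGB with `R = 2 Z N`). -/
def UouStmt : Prop :=
  ∀ (Z N μ : ℕ), 1 ≤ Z → 1 ≤ N → Z ^ 1000 < μ →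
    (Summable fun p : ℤ × ℤ =>
      if p ∈ Bx Z N then 0 else ga N (2 * (p.2 : ℝ)) * ga N (2 * (μ : ℝ) * (p.1 : ℝ))) ∧
    ∑' p : ℤ × ℤ,
      (if p ∈ Bx Z N then 0 else ga N (2 * (p.2 : ℝ)) * ga N (2 * (μ : ℝ) * (p.1 : ℝ))) ≤
        400 * (N : ℝ) + 160000 * (N : ℝ) ^ 2 * Real.exp (-(2 * Real.pi * (Z : ℝ) ^ 2))

/-- Row UNM (sizes for a large `Z`).

Proof. `N ^ 4 ≤ 16 Z ^ 256000`, `exp (- Z ^ 2 / 8) ≤ exp (- Z)` for `Z ≥ 8`, and `Z ^ n exp (- Z)` tends to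
`0` (`Real.tendsto_pow_mul_exp_neg_atTop_nhds_zero`). `log (4 Z N) ≤ log 8 + 64001 log Z`, and
`(log Z) ^ 4 / Z ^ 2` tends to `0` (`Real.isLittleO_pow_log_id_atTop`). Use exponents as variables
(`generalize`) if `Z ^ 64000` is slow. -/
def UnmStmt : Prop :=
  ∃ Z₀ : ℕ, 100 ≤ Z₀ ∧ ∀ Z : ℕ, Z₀ ≤ Z → ∀ N : ℕ, 1 ≤ N → N ≤ 2 * Z ^ 64000 →
    10 ^ 9 * (N : ℝ) ^ 4 * Real.exp (-((Z : ℝ) ^ 2 / 8)) ≤ 1 ∧
      8 * (110 * (2 + Real.log (4 * (Z : ℝ) * (N : ℝ)))) ^ 4 ≤ (Z : ℝ) ^ 2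

/-- Row UFN (FINAL of B3). Hypotheses USM, UPO, UEP, UOU, UNM.

Proof. `Z₀` from UNM, `C = 80001`. With `f = f N t 0` (USM: norm-summable) and `μ ≤ 2 Z ^ 1000`, UPO gives
`U f 1 1 ≤ 8 Z ^ 1000 U f (2 μ) 2`; sum over `μ ∈ S`. By UEP
`∑ μ, U f (2 μ) 2 = ∑ μ, ∑' p, GG N μ t p`, and its real part is at most
`∑ p ∈ Bx Z N, ‖∑ μ, GG N μ t p‖ + ∑ μ, ∑' p, (if p ∈ Bx Z N then 0 else ‖GG N μ t p‖)`; in the first sum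
take out `ga N (2 k) ≤ 1`; the second sum is at most
`|S| 200 N (400 N + 160000 N ^ 2 exp (- 2 π Z ^ 2)) ≤ 80001 |S| N ^ 2` (UEP, UOU, UNM). -/
def UfnStmt : Prop :=
  ∃ (C : ℝ) (Z₀ : ℕ), 0 < C ∧ ∀ Z : ℕ, Z₀ ≤ Z → ∀ (N : ℕ) (t : ℝ) (S : Finset ℕ),
    1 ≤ N → N ≤ 2 * Z ^ 64000 → (∀ μ ∈ S, Z ^ 1000 < μ ∧ μ ≤ 2 * Z ^ 1000) →
    (S.card : ℝ) * U (f N t 0) 1 1 ≤ 8 * (Z : ℝ) ^ 1000 * (C * (S.card : ℝ) * (N : ℝ) ^ 2 + 1 +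
      ∑ p ∈ Bx Z N, ‖∑ μ ∈ S,
        ps (16 * t * (p.1 : ℝ) ^ 3 * (p.2 : ℝ)) (16 * t * (p.1 : ℝ) * (p.2 : ℝ) ^ 3)
          (4 * Real.pi * (p.1 : ℝ) ^ 2 / (N : ℝ) ^ 2) μ *
          th N (48 * t * (μ : ℝ) * (p.1 : ℝ) * (p.2 : ℝ))‖)

/-- Row UPT (initial sums). Hypotheses UGB, USM.

Proof. `R = 4 Z N`. For integers `n`, `s` with `1 ≤ n ≤ N` and `|s| ≤ Z N`, `|n - s| < R`, so
`∑ j < R, ee (j / R * (s - n))` is `R` if `s = n` and `0` otherwise (`sum_ee_div`). Hence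
`R ∑ n ∈ Icc 1 M, f n = ∑ j < R, D j * E j`, `D j = ∑ n ∈ Icc 1 M, ee (-(j / R) * n)`,
`E j = ∑ |s| ≤ Z N, f N t (ξ + j / R) s` (USM). `‖E j‖ ≤ B +` tail, and the tail over `|s| > Z N` is at most
`400 N exp (- π Z ^ 2 / 2)` (UGB with `R = Z N`, `d = 1`, `θ = 0`). `∑ j, ‖D j‖ ≤ R (2 + log R)`:
`kernel_bound`. -/
def UptStmt : Prop :=
  ∀ (Z N M : ℕ) (t ξ B : ℝ), 1 ≤ Z → 1 ≤ N → M ≤ N →
    (∀ ξ' : ℝ, ‖∑' x : ℤ, f N t ξ' x‖ ≤ B) →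
    ‖∑ n ∈ Finset.Icc 1 M, f N t ξ (n : ℤ)‖ ≤
      (2 + Real.log (4 * (Z : ℝ) * (N : ℝ))) *
        (B + 400 * (N : ℝ) * Real.exp (-(Real.pi * (Z : ℝ) ^ 2 / 2)))

/-- Row UCU (cutting off the weight). Hypotheses USM, UPT, UNM.

Proof. `W 4 N t ξ = ∑ n ∈ Icc 1 N, f N t ξ n * w n`, `w n = exp (π n ^ 2 / N ^ 2)`, increasing on `[1, N]`,
at most `e^π ≤ 55` (`e^4 ≤ 55`, `Real.exp_one_lt_d9`). `abel_bound` with `V = 110`: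
`‖W‖ ≤ 110 (2 + log (4 Z N)) (B + 400 N exp (- π Z ^ 2 / 2)) ≤ K B + 1`, `K = 110 (2 + log (4 Z N))`:
by UNM, `8 K ^ 4 ≤ Z ^ 2`, so `K ≤ Z ≤ N`, and `Z 400 N exp (- Z ^ 2 / 8) ≤ 400 N ^ 2 / (10 ^ 9 N ^ 4) ≤ 1`.
`(K B + 1) ^ 4 ≤ 8 (K ^ 4 B ^ 4 + 1) ≤ Z ^ 2 B ^ 4 + 8`. -/
def UcuStmt : Prop :=
  ∃ Z₀ : ℕ, ∀ Z : ℕ, Z₀ ≤ Z → ∀ (N : ℕ) (t ξ B : ℝ), Z ^ 64000 ≤ N → N ≤ 2 * Z ^ 64000 →
    0 ≤ B → (∀ ξ' : ℝ, ‖∑' x : ℤ, f N t ξ' x‖ ≤ B) →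
      ‖W 4 N t ξ‖ ^ 4 ≤ (Z : ℝ) ^ 2 * (B ^ 4 + 1)

/-- Row UBA (squaring).

Proof. `(x, h) ↦ ‖f x‖ ‖f (x + h)‖` is summable over `ℤ × ℤ` (injective map `(x, h) ↦ (x, x + h)`), hence
`h ↦ ‖AA f h‖` is summable, and
`‖∑' x, f x‖ ^ 2 = ∑' x, ∑' y, f x conj (f y) = ∑' x, ∑' h, f x conj (f (x + h)) = ∑' h, AA f h`. -/
def UbaStmt : Prop :=
  ∀ f : ℤ → ℂ, (Summable fun x : ℤ => ‖f x‖) →
    (Summable fun h : ℤ => ‖AA f h‖) ∧ ‖∑' x : ℤ, f x‖ ^ 2 ≤ ∑' h : ℤ, ‖AA f h‖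

/-- Row UBB (decay of the autocorrelation). Hypotheses UGA, USM.

Proof. `y ^ 2 + (y + h) ^ 2 = 2 (y + h / 2) ^ 2 + h ^ 2 / 2`, so
`ga N y ga N (y + h) ≤ exp (- π h ^ 2 / (2 N ^ 2)) ga N (y + h / 2)`; UGA with `d = 1`, `θ = h / 2`. -/
def UbbStmt : Prop :=
  ∀ (N : ℕ) (t ξ : ℝ) (h : ℤ), 1 ≤ N →
    ‖AA (f N t ξ) h‖ ≤ 200 * (N : ℝ) * Real.exp (-(Real.pi * (h : ℝ) ^ 2 / (2 * (N : ℝ) ^ 2)))

/-- Row UBC. Hypotheses USM, UEX.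

Proof. (1) `f N t ξ y conj (f N t ξ (y + h)) = f N t 0 y conj (f N t 0 (y + h)) ee (- ξ h)`. (2) `U g 1 1`
is `∑' h, ‖AA g h‖ ^ 2` by definition (`range 1`, `simp`); summable by UEX. -/
def UbcStmt : Prop :=
  (∀ (N : ℕ) (t ξ : ℝ) (h : ℤ), ‖AA (f N t ξ) h‖ = ‖AA (f N t 0) h‖) ∧
    ∀ g : ℤ → ℂ, (Summable fun x : ℤ => ‖g x‖) →
      (Summable fun h : ℤ => ‖AA g h‖ ^ 2) ∧ U g 1 1 = ∑' h : ℤ, ‖AA g h‖ ^ 2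

/-- Row UBR. Hypotheses UGB, USM, UNM, UBA, UBB, UBC.

Proof. `H = Z N`. By UBA, `‖∑' f N t ξ‖ ^ 2 ≤ ∑' h, ‖AA h‖ = ∑ |h| ≤ H, ‖AA h‖ + T`, where by UBB
`T ≤ ∑ |h| > H, 200 N exp (- π h ^ 2 / (2 N ^ 2)) ≤ 200 N ∑ |h| ≥ H, ga (2 N) h ≤
200 N 800 N exp (- π Z ^ 2 / 8) ≤ 160000 N ^ 2 exp (- Z ^ 2 / 8) ≤ 1` (UGB for `2 N`, `π ≥ 1`, UNM). So
the fourth power is at most `2 (∑ |h| ≤ H, ‖AA h‖) ^ 2 + 2 ≤ 2 (2 H + 1) ∑' h, ‖AA h‖ ^ 2 + 2`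
(Cauchy), and `∑' h, ‖AA h‖ ^ 2 = U (f N t 0) 1 1` by UBC. `2 (2 H + 1) ≤ 6 Z N`. -/
def UbrStmt : Prop :=
  ∃ Z₀ : ℕ, ∀ Z : ℕ, Z₀ ≤ Z → ∀ (N : ℕ) (t ξ : ℝ), 1 ≤ N → N ≤ 2 * Z ^ 64000 →
    ‖∑' x : ℤ, f N t ξ x‖ ^ 4 ≤ 10 * (Z : ℝ) * (N : ℝ) * (U (f N t 0) 1 1 + 1)

/-- Row UMN (FINAL of B2). Hypotheses UCU, UBR.

Proof. `U ≥ 0` (`tsum_nonneg`). UCU with `B = √√(10 Z N (U + 1))`:
`‖W‖ ^ 4 ≤ Z ^ 2 (10 Z N (U + 1) + 1) ≤ 11 Z ^ 3 N (U + 1) ≤ 22 Z ^ 64003 (U + 1) ≤ Z ^ 64004 (U + 1)` for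
`Z ≥ 22`. -/
def UmnStmt : Prop :=
  ∃ Z₀ : ℕ, ∀ Z : ℕ, Z₀ ≤ Z → ∀ (N : ℕ) (t ξ : ℝ), Z ^ 64000 ≤ N → N ≤ 2 * Z ^ 64000 →
    ‖W 4 N t ξ‖ ^ 4 ≤ (Z : ℝ) ^ 64004 * (U (f N t 0) 1 1 + 1)

end Pool.Agent.K4W
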