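import Pool.Agent.K4W.Defs
import Pool.Agent.Helper69_Weyl.Divisor
import Pool.Agent.Helper69_Weyl.Transfer
import Pool.Agent.Helper48_VM5.Cnu

/-!
# K4W, block V: second moment, divisors, grid, count (helper70)

Rows: `GSU GEO THS SHD DVB VDV CQB RED DYA SMO PSL GRD V48`.  Goals: `SMO` (second moment), `VDV`
(divisors), `GRD` (grid for the functions of `μ`), `V48` (count).

Free to use: `Pool.Agent.Helper69_Weyl`: `ee_add ee_int ee_neg conj_ee norm_ee norm_ee_sub_le`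
(`Basic.lean`), `exists_card_divisors_le` (`Divisor.lean`), `sdiv card_sdiv mem_sdiv` (`CountFour.lean`),
`sin_ge norm_ee_neg_sub_one` (`Transfer.lean`); `Pool.Agent.VM5.H48.cnu : VM5.CnuStmt` and
`Pool.Agent.VM5.H48.dist_lb` (`Helper48_VM5/Cnu.lean`).
-/

set_option autoImplicit false

namespace Pool.Agent.K4W

open Pool.Agent.Helper69_Weyl (ee W)
open Pool.Agent.VM (Nr)

/-- `min (8 N, 1 / ‖x‖)`, `‖x‖` the distance to the integers -/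
noncomputable def kn (N : ℕ) (x : ℝ) : ℝ := (max (1 / (8 * (N : ℝ))) |x - round x|)⁻¹

/-- GSU (Gaussian sums over the integers).
PROOF.  `x ^ 2 ≥ |x| - 1 / 4` and `κ ≥ 1` give `exp (- κ x ^ 2) ≤ exp (1 / 4) exp (- |x|)`, `x = (s + c) / N`.
Let `m = - floor c`, so `s + c = (s - m) + c₀`, `0 ≤ c₀ < 1`; with `k = s - m` (`Equiv.subRight`):
`|k + c₀| ≥ k` for `k ≥ 0` and `|k + c₀| ≥ j` for `k = - (j + 1)`, `j ≥ 0`.  So the two halves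
(`Summable.of_nat_of_neg_add_one`, `tsum_of_nat_of_neg_add_one`) are bounded by the geometric series
`∑ j, exp (- 1 / N) ^ j = 1 / (1 - exp (- 1 / N)) ≤ 1 + N` (`exp (1 / N) ≥ 1 + 1 / N`).  Total
`≤ exp (1 / 4) * 2 * (1 + N) ≤ 8 N` (`exp (1 / 4) ≤ 2` suffices: `exp 1 < 16`). -/
def GsuStmt : Prop :=
  ∀ (N : ℕ) (κ c : ℝ), 1 ≤ N → 1 ≤ κ →
    Summable (fun s : ℤ => Real.exp (-(κ * ((s : ℝ) + c) ^ 2 / (N : ℝ) ^ 2))) ∧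
      ∑' s : ℤ, Real.exp (-(κ * ((s : ℝ) + c) ^ 2 / (N : ℝ) ^ 2)) ≤ 8 * (N : ℝ)

/-- GEO (Gaussian sum with a linear phase).  Uses GSU.
PROOF.  `w s = exp (- κ (s + c) ^ 2 / N ^ 2)`, summable (GSU), `0 < w ≤ 1`.  Trivial bound: `‖∑ w s ee (θ s)‖ ≤
∑ w s ≤ 8 N`.  Let `δ = |θ - round θ|`, `0 < δ ≤ 1 / 2`.  Replace `θ` by `θ₀ = θ - round θ` (`ee_int`, `s` is
an integer).  `(1 - ee θ₀) ∑ w s ee (θ₀ s) = ∑ (w s - w (s - 1)) ee (θ₀ s)` (shift `s` by one), so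
`‖1 - ee θ₀‖ ‖∑‖ ≤ ∑ |w s - w (s - 1)|`.  The last sum is at most `3`: `w` is increasing up to `- c` and
decreasing after it (a telescoping sum of each half over `ℕ`, `≤ 1` each: for `s ≤ - c` and for
`s - 1 ≥ - c`, and at most one further term `≤ 1`; for partial sums over `Finset.range` use
`Finset.sum_range_sub`, then `tsum_le_of_sum_range_le`).  `‖1 - ee θ₀‖ ≥ 4 δ` (`norm_ee_neg_sub_one` for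
`x = δ ≤ 1 / 2`; `‖ee (-x) - 1‖ = ‖ee x - 1‖` by conjugation).  So `‖∑‖ ≤ 3 / (4 δ) ≤ 1 / δ`. -/
def GeoStmt : Prop :=
  ∀ (N : ℕ) (κ c θ : ℝ), 1 ≤ N → 1 ≤ κ →
    ‖∑' s : ℤ, (Real.exp (-(κ * ((s : ℝ) + c) ^ 2 / (N : ℝ) ^ 2)) : ℂ) * ee (θ * (s : ℝ))‖ ≤ kn N θ

/-- THS (square of the theta sum).  Uses GSU, GEO.
PROOF.  `g s = ga N (2 s) ee (x s ^ 2)`, `‖g s‖ = exp (- 4 π s ^ 2 / N ^ 2)`, summable (GSU, `κ = 4 π`).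
`‖th‖ ^ 2 = ‖th * conj th‖`, `th * conj th = ∑' p : ℤ × ℤ, g p.1 * conj (g p.2)`
(`tsum_mul_tsum_of_summable_norm`); substitute `p = (s + d, s)` (equivalence of `ℤ × ℤ`, `(d, s)`), sum over
`s` first (`Summable.tsum_prod`).  `ga N (2 (s+d)) * ga N (2 s) = exp (- 2 π d ^ 2 / N ^ 2) *
exp (- 8 π (s + d / 2) ^ 2 / N ^ 2)` and `x (s+d) ^ 2 - x s ^ 2 = x d ^ 2 + (2 x d) s`.  So the inner sum has norm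
`exp (- 2 π d ^ 2 / N ^ 2) * ‖∑' s, exp (- 8 π (s + d/2) ^ 2 / N ^ 2) ee ((2 x d) s)‖`, GEO with `κ = 8 π`,
`c = d / 2`.  Summable: `kn ≤ 8 N` and GSU with `κ = 2 π`, `c = 0`. -/
def ThsStmt : Prop :=
  ∀ (N : ℕ) (x : ℝ), 1 ≤ N →
    Summable (fun d : ℤ => Real.exp (-(2 * Real.pi * (d : ℝ) ^ 2 / (N : ℝ) ^ 2)) *
      kn N (2 * x * (d : ℝ))) ∧
    ‖th N x‖ ^ 2 ≤ ∑' d : ℤ, Real.exp (-(2 * Real.pi * (d : ℝ) ^ 2 / (N : ℝ) ^ 2)) *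
      kn N (2 * x * (d : ℝ))

/-- SHD (sum over `H`, truncation of `d`).  Uses GSU, THS.
PROOF.  THS for `x = y H`.  `kn N _ ≤ 8 N` (`max_le` and `inv_anti₀`), `kn ≥ 0`, `#(Hs X) ≤ 2 X`.  Split the sum
over `d`: `d = 0` gives `≤ 8 N`; `d ∈ Hs (Z N)`: the exponential is `≤ 1`; the other `d` have
`|d| ≥ Z N`, so `2 π d ^ 2 / N ^ 2 ≥ π d ^ 2 / N ^ 2 + π Z ^ 2`, and their sum is `≤ exp (- π Z ^ 2) * 8 N * 8 N ≤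
8 N` as soon as `16 Z ^ 64000 ≤ exp (π Z ^ 2)` (true for large `Z`: `exp` beats powers).  Total for each
`H`: `16 N + ∑ d ∈ Hs (Z N), kn`. -/
def ShdStmt : Prop :=
  ∃ Z₀ : ℕ, ∀ Z : ℕ, Z₀ ≤ Z → ∀ N : ℕ, Z ^ 64000 ≤ N → N ≤ 2 * Z ^ 64000 → ∀ (X : ℕ) (y : ℝ),
    ∑ H ∈ Hs X, ‖th N (y * (H : ℝ))‖ ^ 2 ≤ 32 * (N : ℝ) * (X : ℝ) +
      ∑ H ∈ Hs X, ∑ d ∈ Hs (Z * N), kn N (2 * y * ((H : ℝ) * (d : ℝ)))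

/-- DVB (divisor bound).  No hypotheses.
PROOF.  `exists_card_divisors_le` with `δ = 1 / 600000`: `d(n) ≤ C n ^ δ ≤ C Z ^ (1/2)` for
`1 ≤ n ≤ Z ^ 300000`.  Group the pairs by `H = p.1 * p.2 ∈ Hs X` (`Finset.sum_fiberwise_of_maps_to`): the
fibre over `H` injects by `p ↦ p.1` into `sdiv H.natAbs` (`mem_sdiv`; `p.2` is determined by `p.1` because
`p.1 ≠ 0`), so it has at most `2 C Z ^ (1/2)` elements, and `200 C Z ^ (1/2) ≤ Z` for large `Z`. -/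
def DvbStmt : Prop :=
  ∃ Z₀ : ℕ, ∀ Z : ℕ, Z₀ ≤ Z → ∀ (P : Finset (ℤ × ℤ)) (X : ℕ), X ≤ Z ^ 300000 →
    (∀ p ∈ P, p.1 * p.2 ≠ 0 ∧ |p.1 * p.2| ≤ (X : ℤ)) → ∀ Y : ℤ → ℝ, (∀ n, 0 ≤ Y n) →
      100 * ∑ p ∈ P, Y (p.1 * p.2) ≤ (Z : ℝ) * ∑ H ∈ Hs X, Y H

/-- VDV (the pairs in the box, goal V2).  Uses DVB.
PROOF.  For `(h, k)` in `Bx Z N`: `|h| Z ^ 1000 ≤ 2 Z N`, `|k| ≤ Z N`, so `|h k| Z ^ 1000 ≤ 2 Z ^ 2 N ^ 2 ≤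
X Z ^ 1000`, `|h k| ≤ X`.  It suffices to treat `X' = min X (Z ^ 200000)`: `2 Z ^ 2 N ^ 2 ≤ 8 Z ^ 128002`, so
`|h k| ≤ 8 Z ^ 128002 ≤ Z ^ 200000` too (`Z ≥ 8`); DVB for `X'`, and `Hs X' ⊆ Hs X`. -/
def VdvStmt : Prop :=
  ∃ Z₀ : ℕ, ∀ Z : ℕ, Z₀ ≤ Z → ∀ N : ℕ, Z ^ 64000 ≤ N → N ≤ 2 * Z ^ 64000 → ∀ X : ℕ,
    2 * Z ^ 2 * N ^ 2 ≤ X * Z ^ 1000 → ∀ Y : ℤ → ℝ, (∀ n, 0 ≤ Y n) →
      ∑ p ∈ Bx Z N, Y (p.1 * p.2) ≤ (Z : ℝ) * ∑ H ∈ Hs X, Y H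

/-- CQB (small fractional parts in blocks of length `Q`).  No hypotheses.
PROOF.  Divide `[-X, X]` (`2 X + 1` integers) into blocks of `Q` consecutive integers (`n ↦ (n + X) / Q`):
at most `(2 X + 1) / Q + 1 ≤ 2 X / Q + 2` blocks.  In the block which starts with `n₀`, write `n = n₀ + k`,
`0 ≤ k < Q`: `θ n = θ n₀ + a k / Q + (θ - a / Q) k`, the last term has absolute value `≤ δ`; so
`Nr (θ n) η` gives `Nr (θ n₀ + a k / Q) (η + δ)`.  The map `k ↦ a k mod Q =: j` is injective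
(`gcd (a, Q) = 1`), and `Nr (θ n₀ + j / Q) (η + δ)`: for some integer `z` the integer `j - z Q` lies in
the interval `[-Q θ n₀ - Q (η + δ), -Q θ n₀ + Q (η + δ)]`, which contains at most `2 (η + δ) Q + 1` integers,
and `j ↦ j - z Q` (any choice of `z`) is injective on residues. -/
def CqbStmt : Prop :=
  ∀ (θ δ η : ℝ) (a : ℤ) (Q X : ℕ), 1 ≤ Q → Int.gcd a (Q : ℤ) = 1 →
    |θ - (a : ℝ) / (Q : ℝ)| * (Q : ℝ) ≤ δ → 0 ≤ η → ∀ A : Finset ℤ,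
      (∀ n ∈ A, |n| ≤ (X : ℤ) ∧ Nr (θ * (n : ℝ)) η) →
        (A.card : ℝ) ≤ (2 * (X : ℝ) / (Q : ℝ) + 2) * (2 * (η + δ) * (Q : ℝ) + 1)

/-- RED (approximation of `m t`).  No hypotheses.
PROOF.  `g = gcd (m a, Q)`, `a' = m a / g`, `Q' = Q / g`.  `g ∣ Q` and `gcd (a, Q) = 1` give `g ∣ m`, so
`g ≤ m`, `Q = g Q' ≤ m Q'`.  `m a / Q = a' / Q'` and `|m t - m a / Q| Q' ≤ m / Q ^ 2 * Q = m / Q`. -/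
def RedStmt : Prop :=
  ∀ (m Q : ℕ) (a : ℤ) (t : ℝ), 1 ≤ m → 1 ≤ Q → Int.gcd a (Q : ℤ) = 1 →
    |t - (a : ℝ) / (Q : ℝ)| ≤ 1 / (Q : ℝ) ^ 2 →
      ∃ (a' : ℤ) (Q' : ℕ), 1 ≤ Q' ∧ Q' ≤ Q ∧ Q ≤ m * Q' ∧ Int.gcd a' (Q' : ℤ) = 1 ∧
        |(m : ℝ) * t - (a' : ℝ) / (Q' : ℝ)| * (Q' : ℝ) ≤ (m : ℝ) / (Q : ℝ)

/-- DYA (dyadic summation).  No hypotheses.
PROOF.  `η_j = 2 ^ j / (8 N)`, `j ≤ J`; `η_J ≥ 1 / 2`, so every `θ n` is within `η_J` of `round (θ n)`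
(`abs_sub_round`).  For each `n` let `j` be the least index with `|θ n - round (θ n)| ≤ η_j`: if `j = 0`
then `kn ≤ 8 N = 1 / η_0`; if `j ≥ 1` then `|θ n - round| > η_(j-1)`, `kn ≤ 1 / η_(j-1) = 2 / η_j`.  So
`kn N (θ n) ≤ ∑_(j ≤ J) (2 / η_j) [|θ n - round (θ n)| ≤ η_j]`; sum over `n ∈ A`, exchange the sums, the
hypothesis gives `∑_(j ≤ J) (2 / η_j) B η_j = 2 B (J + 1)`. -/
def DyaStmt : Prop :=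
  ∀ (N J : ℕ) (θ B : ℝ) (A : Finset ℤ), 1 ≤ N → 4 * N ≤ 2 ^ J →
    (∀ η : ℝ, 1 / (8 * (N : ℝ)) ≤ η → ∀ A' : Finset ℤ, A' ⊆ A →
      (∀ n ∈ A', Nr (θ * (n : ℝ)) η) → (A'.card : ℝ) ≤ B * η) →
    ∑ n ∈ A, kn N (θ * (n : ℝ)) ≤ 2 * B * ((J : ℝ) + 1)

/-- SMO (second moment, goal V1).  Uses SHD, DVB, CQB, RED, DYA.
PROOF.  `m = 96 μ`, `y = 48 t μ`, so `2 y H d = (m t) (H d)`.  SHD.  `X Z ^ 1000 ≤ 16 Z ^ 2 N ^ 2 ≤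
64 Z ^ 128002`, so `Y₀ := X Z N ≤ 128 Z ^ 191003 ≤ Z ^ 300000`; DVB for `P = Hs X ×ˢ Hs (Z N)` and
`Y n = kn N (m t n)` (`Finset.sum_product`): `100 ∑∑ kn ≤ Z ∑ n ∈ Hs Y₀, kn N (m t n)`.
RED: `a', Q'`, `Q' ≤ Q ≤ m Q'`, `δ = m / Q`.  For `η ≥ 1 / (8 N)`: `δ ≤ 192 Z ^ 1000 / Z ^ 111900 ≤
1 / (8 N) ≤ η`, `η Q' ≥ Q / (8 N m) ≥ 1`, so `2 (η + δ) Q' + 1 ≤ 5 η Q'`; `Y₀ ≥ N ^ 3 Z / Z ^ 1000 ≥ Z ^ 191001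
≥ Q ≥ Q'`, so `2 Y₀ / Q' + 2 ≤ 4 Y₀ / Q'`: CQB gives at most `20 Y₀ η` elements.  DYA with `B = 20 Y₀`, `A = Hs Y₀`
and `J = Nat.clog 2 (4 N)`: `100 (J + 1) ≤ Z` for large `Z` (`4 N ≤ 8 Z ^ 64000`, `J ≤ 64000 (Nat.log 2 Z + 1) + 4`).
Total: `32 N X + (Z / 100) * 40 Y₀ * (Z / 100) = 32 N X + (4 / 1000) N X Z ^ 3 ≤ N X Z ^ 3`. -/
def SmoStmt : Prop :=
  ∃ Z₀ : ℕ, ∀ Z : ℕ, Z₀ ≤ Z → ∀ (N Q : ℕ) (a : ℤ) (t : ℝ), ParB Z N Q a t →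
    ∀ μ : ℕ, Z ^ 1000 < μ → μ ≤ 2 * Z ^ 1000 → ∀ X : ℕ, N ^ 2 ≤ X * Z ^ 1000 →
      X * Z ^ 1000 ≤ 16 * Z ^ 2 * N ^ 2 →
        ∑ H ∈ Hs X, ‖th N (48 * t * (μ : ℝ) * (H : ℝ))‖ ^ 2 ≤ (N : ℝ) * (X : ℝ) * (Z : ℝ) ^ 3

/-- PSL (the functions `ps`).  No hypotheses.
PROOF.  `‖ps‖ = exp (- l μ ^ 2) ≤ 1`.  Periodicity: `α μ ^ 3 + β μ` changes by an integer (`ee_add`,
`ee_int`, `ee_neg`).  `‖ps α β l μ - ps α' β' l' μ‖ ≤ ‖ee (..) - ee (..)‖ exp (..) + |exp (- l μ ^ 2) - exp (- l' μ ^ 2)|`,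
`norm_ee_sub_le`, and `|exp (-x) - exp (-y)| ≤ |x - y|` for `x, y ≥ 0`. -/
def PslStmt : Prop :=
  (∀ (α β l : ℝ) (μ : ℕ), 0 ≤ l → ‖ps α β l μ‖ ≤ 1) ∧
  (∀ (α β l : ℝ) (m n : ℤ) (μ : ℕ), ps (α - (m : ℝ)) (β - (n : ℝ)) l μ = ps α β l μ) ∧
  ∀ (α β l α' β' l' : ℝ) (μ : ℕ), 0 ≤ l → 0 ≤ l' →
    ‖ps α β l μ - ps α' β' l' μ‖ ≤ 2 * Real.pi * (|α - α'| * (μ : ℝ) ^ 3 + |β - β'| * (μ : ℝ)) +
      |l - l'| * (μ : ℝ) ^ 2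

/-- GRD (the grid, goal V3).  Uses PSL.
PROOF.  `A = Z ^ 3082`, `B = Z ^ 1082`, `D = Z ^ 82 * (Z ^ 1000) ^ 2`; `Ψ` = image of
`range A ×ˢ range B ×ˢ range (Z ^ 85)` under `(i, j, k) ↦ ps (i / A) (j / B) (k / D)` (classical decidable
equality), `card ≤ Z ^ 4249`.  Given `α, β, l`: PSL (periodicity) replaces `α, β` by `Int.fract α`,
`Int.fract β`; `i = ⌊fract α * A⌋₊ < A`, `|fract α - i / A| ≤ 1 / A`, the same for `β`;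
`k = ⌊l D⌋₊ ≤ l D ≤ 100 Z ^ 2 Z ^ 82 < Z ^ 85`, `|l - k / D| ≤ 1 / D`.  For `μ ≤ 2 Z ^ 1000` the error is
`≤ 2 π (8 Z ^ 3000 / Z ^ 3082 + 2 Z ^ 1000 / Z ^ 1082) + 4 / Z ^ 82 ≤ 100 / Z ^ 82 ≤ 1 / Z ^ 81` (`Z ≥ 1000`). -/
def GrdStmt : Prop :=
  ∃ Z₀ : ℕ, ∀ Z : ℕ, Z₀ ≤ Z → ∃ Ψ : Finset (ℕ → ℂ), Ψ.card ≤ Z ^ 4250 ∧
    (∀ ψ ∈ Ψ, ∀ μ, ‖ψ μ‖ ≤ 1) ∧
    ∀ α β l : ℝ, 0 ≤ l → l * ((Z : ℝ) ^ 1000) ^ 2 ≤ 100 * (Z : ℝ) ^ 2 →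
      ∃ ψ ∈ Ψ, ∀ μ : ℕ, μ ≤ 2 * Z ^ 1000 → ‖ps α β l μ - ψ μ‖ * (Z : ℝ) ^ 81 ≤ 1

/-- V48 (count, goal V4).  No hypotheses.
PROOF.  `m ↦ 48 m` maps `A` injectively into `{m' | |m'| ≤ 48 X, Nr (t m') η}`; `VM5.H48.cnu` (the set is
finite; `Nat.card_mono`-type comparison with `A`): `≤ 16 (48 X / Q + 1) (η Q + 1) ≤ 2000 (X / Q + 1) (η Q + 1)`. -/
def V48Stmt : Prop :=
  ∀ (t η : ℝ) (a : ℤ) (Q X : ℕ), 1 ≤ Q → Int.gcd a (Q : ℤ) = 1 →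
    |t - (a : ℝ) / (Q : ℝ)| ≤ 1 / (Q : ℝ) ^ 2 → 0 ≤ η → ∀ A : Finset ℤ,
      (∀ m ∈ A, |m| ≤ (X : ℤ) ∧ Nr (48 * t * (m : ℝ)) η) →
        (A.card : ℝ) ≤ 2000 * ((X : ℝ) / (Q : ℝ) + 1) * (η * (Q : ℝ) + 1)

end Pool.Agent.K4W
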