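import Pool.Agent.K4W.Defs
import Pool.Agent.VM.StmtsH

/-!
# Squad K4W, block W: Weil's bound for the sums of `e((a x ^ 4 + b x) / p)`

Stepanov's method in Bombieri's form, in one variable (rows WCH WDB WLS WPT WST), and the
`L`-function `1 + a₁ T + a₂ T ^ 2 + a₃ T ^ 3` (all other rows).  Everything is elementary.

`p` is a prime, `ψ = ZMod.stdAddChar : AddChar (ZMod p) ℂ`.  Every row: file
`Pool/Agent/HelperNN_K4W/XXX.lean`, `import Pool.Agent.K4W.StmtsW`, namespace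
`Pool.Agent.K4W.HNN`, `theorem xxx (hypotheses = rows in uses, in this order) : XxxStmt`.
-/

set_option autoImplicit false

open Polynomial

namespace Pool.Agent.K4W

open Pool.Agent.Helper69_Weyl (ee)

/-! ### definitions -/

/-- the elementary symmetric functions of the roots of the monic polynomial `g` (`0` for
`i > deg g`) -/
noncomputable def ec {K : Type} [Field K] (g : K[X]) (i : ℕ) : K := (-1) ^ i * g.reverse.coeff i

/-- the sum of `A θ ^ 4 + B θ` over the roots `θ` of the monic polynomial `g`, by Newton's formula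
for the fourth power sum -/
noncomputable def lam {K : Type} [Field K] (A B : K) (g : K[X]) : K :=
  A * (ec g 1 ^ 4 - 4 * ec g 1 ^ 2 * ec g 2 + 2 * ec g 2 ^ 2 + 4 * ec g 1 * ec g 3 -
    4 * ec g 4) + B * ec g 1

/-- `χ(g) = ψ(lam g)` -/
noncomputable def chi (p : ℕ) [Fact p.Prime] (A B : ZMod p) (g : (ZMod p)[X]) : ℂ :=
  ZMod.stdAddChar (lam A B g)

open Classical in
/-- the monic polynomials of degree `n` over `ZMod p` (see row WMN) -/
noncomputable def Mon (p n : ℕ) [Fact p.Prime] : Finset (ZMod p)[X] :=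
  (Finset.univ : Finset (Fin n → ZMod p)).image
    (fun c => X ^ n + ∑ i : Fin n, C (c i) * X ^ (i : ℕ))

open Classical in
/-- the monic irreducible polynomials of degree `e` over `ZMod p` -/
noncomputable def irr (p e : ℕ) [Fact p.Prime] : Finset (ZMod p)[X] :=
  (Mon p e).filter Irreducible

/-- the coefficients `a_n` of the `L`-function -/
noncomputable def an (p : ℕ) [Fact p.Prime] (A B : ZMod p) (n : ℕ) : ℂ :=
  ∑ g ∈ Mon p n, chi p A B g

/-- `S_r`, written with irreducible polynomials -/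
noncomputable def Sr (p : ℕ) [Fact p.Prime] (A B : ZMod p) (r : ℕ) : ℂ :=
  ∑ e ∈ r.divisors, ∑ P ∈ irr p e, (e : ℂ) * chi p A B P ^ (r / e)

/-- `S_r` as a sum over the field `K` with `p ^ r` elements -/
noncomputable def Sk (p : ℕ) [Fact p.Prime] (K : Type) [Field K] [Fintype K] [Algebra (ZMod p) K]
    (A B : ZMod p) : ℂ :=
  ∑ x : K, ZMod.stdAddChar (Algebra.trace (ZMod p) K
    (algebraMap (ZMod p) K A * x ^ 4 + algebraMap (ZMod p) K B * x))

/-! ### the function `lam` -/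

/-- **WMU** (uses nothing).  `lam` is additive.
PROOF.  `Polynomial.reverse_mul_of_domain`: `(g * h).reverse = g.reverse * h.reverse`; the
coefficients `0` of `g.reverse`, `h.reverse` are the leading coefficients, i.e. `1`.
`Polynomial.coeff_mul` (sum over `Finset.antidiagonal i`, `i = 1, 2, 3, 4`) gives, with
`G i = ec g i`, `H i = ec h i`: `ec (g h) 1 = G 1 + H 1`, `ec (g h) 2 = G 2 + G 1 H 1 + H 2`,
`ec (g h) 3 = G 3 + G 2 H 1 + G 1 H 2 + H 3`, `ec (g h) 4 = G 4 + G 3 H 1 + G 2 H 2 + G 1 H 3 + H 4`.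
The claim is then an identity of polynomials: `ring`. -/
def WmuStmt : Prop :=
  ∀ (K : Type) [Field K] (A B : K) (g h : K[X]), g.Monic → h.Monic →
    lam A B (g * h) = lam A B g + lam A B h

/-- **WLP** (uses WMU).  `lam` of a product of linear factors.
PROOF.  Induction on `n` (`Finset.prod_range_succ`, `Polynomial.monic_prod_of_monic`).  `n = 0`:
`(1 : K[X]).reverse = 1`, all `ec 1 i`, `i ≥ 1`, are `0`.  Step: `ec (X - C x) 1 = x` and
`ec (X - C x) i = 0` for `i ≥ 2` (`Polynomial.coeff_reverse`, `natDegree = 1`,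
`revAt 1 1 = 0`, `revAt 1 i = i` for `i ≥ 2`), so `lam A B (X - C x) = A x ^ 4 + B x`; WMU. -/
def WlpStmt : Prop :=
  ∀ (K : Type) [Field K] (A B : K) (x : ℕ → K) (n : ℕ),
    lam A B (∏ i ∈ Finset.range n, (X - C (x i))) =
      ∑ i ∈ Finset.range n, (A * x i ^ 4 + B * x i)

/-- **WMP** (uses nothing).  `lam` and a homomorphism of fields.
PROOF.  `Polynomial.coeff_reverse`, `Polynomial.natDegree_map`, `Polynomial.coeff_map`:
`ec (g.map φ) i = φ (ec g i)`; then `map_add`, `map_mul`, `map_pow`, .. -/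
def WmpStmt : Prop :=
  ∀ (K K' : Type) [Field K] [Field K'] (φ : K →+* K') (A B : K) (g : K[X]),
    lam (φ A) (φ B) (g.map φ) = φ (lam A B g)

/-! ### monic polynomials and the `L`-function -/

/-- **WMN** (uses nothing).
PROOF.  `→`: the sum over `Fin n` has degree `< n` (`Polynomial.degree_sum_fin_lt` or
`Finset.sum_fin_eq_sum_range`), `Polynomial.monic_X_pow_add`, `natDegree_X_pow_add` (or
`Polynomial.degree_add_eq_left_of_degree_lt`).  `←`: `c i := g.coeff i`,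
`Polynomial.Monic.as_sum` and `Finset.sum_range`. -/
def WmnStmt : Prop :=
  ∀ (p : ℕ) [Fact p.Prime] (n : ℕ) (g : (ZMod p)[X]), g ∈ Mon p n ↔ g.Monic ∧ g.natDegree = n

/-- **WVA** (uses WMN).  `a_n = 0` for `n ≥ 4`.
PROOF.  `g ↦ g + X ^ (n - 4)` is a bijection of `Mon p n` (WMN; `n - 4 < n`; inverse: subtract).
It does not change `ec g i` for `i ≤ 3` and changes `ec g 4` to `ec g 4 + 1`
(`ec g i = (-1) ^ i g.coeff (n - i)` for `i ≤ n` by `Polynomial.coeff_reverse`, `Polynomial.revAt_le`),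
so `lam` goes to `lam - 4 A` and `an = ψ(-4 A) an` (`AddChar.map_add_eq_mul`).  `-4 A ≠ 0` in
`ZMod p` (`p ≥ 5`), so `ψ(-4 A) ≠ 1` (`ZMod.injective_stdAddChar`, `AddChar.map_zero_eq_one`). -/
def WvaStmt : Prop :=
  ∀ (p : ℕ) [Fact p.Prime] (A B : ZMod p) (n : ℕ), 5 ≤ p → A ≠ 0 → 4 ≤ n → an p A B n = 0

/-- **WAO** (uses nothing).  `a_0 = 1` and `a_1` is the sum of the theorem.
PROOF.  `Mon p 0 = {1}`, `lam A B 1 = 0`.  `Mon p 1 = {X + C c}`: the map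
`c ↦ X ^ 1 + ∑ i : Fin 1, C (c i) * X ^ i` is injective (`Finset.sum_image`), `lam` of
`X + C c` is `A (-c) ^ 4 + B (-c)` (as in WLP); reindex the sum over `Fin 1 → ZMod p`
(`Equiv.funUnique`) by `x = - c 0` (`Equiv.neg`). -/
def WaoStmt : Prop :=
  ∀ (p : ℕ) [Fact p.Prime] (A B : ZMod p), an p A B 0 = 1 ∧
    an p A B 1 = ∑ x : ZMod p, ZMod.stdAddChar (A * x ^ 4 + B * x)

open Classical in
/-- **WDG** (uses WMN).  The degree of a polynomial counted with its prime powers.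
PROOF.  Induction on `n` for all `g` (or with `UniqueFactorizationMonoid.normalizedFactors`).
`n = 0`: both sides are `0`.  `n ≥ 1`: `g` has a monic irreducible factor `P₀` of degree `e₀ ≤ n`,
`g = P₀ h`, `h ∈ Mon p (n - e₀)` (if `n = e₀` then `h = 1`).  For a monic irreducible `P ≠ P₀`:
`P ^ k ∣ P₀ h` iff `P ^ k ∣ h` (`P`, `P₀` are coprime: two monic irreducible polynomials which
divide each other are equal); for `P = P₀`: `P₀ ^ k ∣ P₀ h` iff `P₀ ^ (k - 1) ∣ h`, `k ≥ 1`, which is true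
for `k = 1`.  So the sum for `g` is the sum for `h` plus `e₀`.  (In the sum for `h` the ranges may be
enlarged from `Icc 1 (n - e₀)` to `Icc 1 n`: `P ^ k ∣ h`, `h ≠ 0`, implies `e k ≤ n - e₀`.)
With multisets: `S = normalizedFactors g` consists of monic irreducible polynomials, `S.prod = g`,
`natDegree g = ∑ natDegree`, and `P ^ k ∣ g` iff `k ≤ S.count P`. -/
def WdgStmt : Prop :=
  ∀ (p : ℕ) [Fact p.Prime] (n : ℕ) (g : (ZMod p)[X]), g ∈ Mon p n →
    n = ∑ e ∈ Finset.Icc 1 n, ∑ P ∈ irr p e, ∑ k ∈ Finset.Icc 1 n, if P ^ k ∣ g then e else 0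

open Classical in
/-- **WML** (uses WMU, WMN).  The sum over the multiples of `P ^ k`.
PROOF.  If `e k ≤ n`: `h ↦ P ^ k * h` is a bijection from `Mon p (n - e k)` to the monic
polynomials of degree `n` which are divisible by `P ^ k` (`Polynomial.Monic.natDegree_mul`,
`Polynomial.Monic.of_mul_monic_left`), and `chi (P ^ k * h) = chi P ^ k * chi h` (WMU, induction on
`k`, `AddChar.map_add_eq_mul`; `lam A B 1 = 0` by WMU for `1 * 1`).  If `n < e k` there is no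
`g ≠ 0` of degree `n` with `P ^ k ∣ g`. -/
def WmlStmt : Prop :=
  ∀ (p : ℕ) [Fact p.Prime] (A B : ZMod p) (n e k : ℕ) (P : (ZMod p)[X]), P ∈ irr p e →
    ∑ g ∈ (Mon p n).filter (fun g => P ^ k ∣ g), chi p A B g =
      if e * k ≤ n then chi p A B P ^ k * an p A B (n - e * k) else 0

/-- **WRL** (uses WDG, WML).  The relation between `a_n` and `S_r` (logarithmic derivative of the
Euler product).
PROOF.  `n a_n = ∑_g χ(g) n`; insert WDG and exchange the sums: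
`= ∑_{e ∈ Icc 1 n} ∑_{P ∈ irr e} ∑_{k ∈ Icc 1 n} e ∑_{g, P ^ k ∣ g} χ(g)`
`= ∑_e ∑_P ∑_{k ∈ Icc 1 n, e k ≤ n} e χ(P) ^ k a_(n - e k)` (WML).  On the right side for `r ∈ Icc 1 n`:
`∑_{e ∣ r} ∑_{P ∈ irr e} e χ(P) ^ (r / e) a_(n - r)`.  The pairs `(e, k)`, `e, k ≥ 1`, `e k ≤ n`, and the
pairs `(r, e)`, `r ∈ Icc 1 n`, `e ∣ r`, correspond by `r = e k` (`Finset.sum_sigma'`,
`Finset.sum_bij'`). -/
def WrlStmt : Prop :=
  ∀ (p : ℕ) [Fact p.Prime] (A B : ZMod p) (n : ℕ), 1 ≤ n →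
    (n : ℂ) * an p A B n = ∑ r ∈ Finset.Icc 1 n, Sr p A B r * an p A B (n - r)

/-! ### extension fields -/

/-- **WFB** (uses nothing).  The characteristic polynomial of an element of a finite field.
PROOF.  `P = minpoly (ZMod p) x`, `Fintype.card K = p ^ r` (`Module.card_eq_pow_finrank`), so
`y ^ (p ^ r) = y` (`FiniteField.pow_card`).  `H := ∏_{i < r} (X - C (x ^ (p ^ i)))`; `H.map (frobenius K p) =
∏_{i < r} (X - C (x ^ (p ^ (i+1)))) = H` (`Finset.prod_range_succ`, `Finset.prod_range_succ'`,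
`x ^ (p ^ r) = x = x ^ (p ^ 0)`).  So the coefficients `c` of `H` satisfy `c ^ p = c`; they are in the range of
`algebraMap (ZMod p) K` (the `p` elements of the range are roots of `X ^ p - X`, which has at most
`p` roots; or `FiniteField.sub ..`, `ZMod` lemmas).  So `H = c.map (algebraMap ..)` for a monic
`c : (ZMod p)[X]` (`Polynomial.lifts_and_natDegree_eq_and_monic`), `natDegree c = r`.
Let `R` be a monic irreducible factor of `c`: `R.map` divides `H`, which splits, so `R.map` has a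
root `y`, which is a root of `H`: `y = x ^ (p ^ i)`.  `aeval y R = (aeval x R) ^ (p ^ i)` (the
coefficients are in `ZMod p`; `ZMod.expand_card` or `map_aeval` for the algebra homomorphism
`iterateFrobenius` / `frobeniusAlgHom`), so `aeval x R = 0` and `R = P`
(`minpoly.eq_of_irreducible_of_monic`).  So all normalized factors of `c` are `P`: `c = P ^ k`
(`Multiset.eq_replicate`, `Multiset.prod_replicate`), `r = k natDegree P`.
(`natDegree P ∣ r` is also `minpoly.degree_dvd`.) -/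
def WfbStmt : Prop :=
  ∀ (p : ℕ) [Fact p.Prime] (K : Type) [Field K] [Fintype K] [Algebra (ZMod p) K] (r : ℕ),
    Module.finrank (ZMod p) K = r → ∀ x : K, ∃ k : ℕ, r = k * (minpoly (ZMod p) x).natDegree ∧
      ((minpoly (ZMod p) x) ^ k).map (algebraMap (ZMod p) K) =
        ∏ i ∈ Finset.range r, (X - C (x ^ (p ^ i)))

open Classical in
/-- **WRT** (uses WMN).  The number of roots of an irreducible polynomial.
PROOF.  `minpoly (ZMod p) x = P` iff `aeval x P = 0` (`minpoly.eq_of_irreducible_of_monic`,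
`minpoly.aeval`).  `P ∣ X ^ (p ^ r) - X` in `(ZMod p)[X]`:
`Irreducible.natDegree_dvd_iff_dvd_X_pow_card_pow_sub_X` (Mathlib, `Nat.card (ZMod p) = p`).
`Fintype.card K = p ^ r`; `X ^ (p ^ r) - X` over `K` has the roots `Finset.univ.val`
(`FiniteField.roots_X_pow_card_sub_X`), so it splits and its roots are simple; its divisor
`P.map (algebraMap ..)` splits and has `e` different roots (`Polynomial.roots.le_of_dvd`,
`Multiset.nodup_of_le`, `Polynomial.splits_iff_card_roots`). -/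
def WrtStmt : Prop :=
  ∀ (p : ℕ) [Fact p.Prime] (K : Type) [Field K] [Fintype K] [Algebra (ZMod p) K] (r e : ℕ),
    Module.finrank (ZMod p) K = r → 1 ≤ r → e ∣ r → ∀ P ∈ irr p e,
      ((Finset.univ : Finset K).filter (fun x => minpoly (ZMod p) x = P)).card = e

/-- **WEX** (uses WMU, WLP, WMP, WMN, WFB, WRT).  `S_r` as a sum over the field with `p ^ r` elements.
PROOF.  Let `x : K`, `P = minpoly (ZMod p) x`, `e = natDegree P`, `r = k e` (WFB), `y = A x ^ 4 + B x`.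
`algebraMap (trace y) = ∑_{i < r} y ^ (p ^ i)` (`FiniteField.algebraMap_trace_eq_sum_pow`,
`Nat.card (ZMod p) = p`) `= ∑_{i < r} (A (x ^ (p ^ i)) ^ 4 + B x ^ (p ^ i))` (`add_pow_char_pow`,
`mul_pow`, `ZMod.pow_card_pow` for the images of `A`, `B`) `= lam A B (∏ (X - C (x ^ (p ^ i))))`
(WLP) `= lam A B ((P ^ k).map ..)` (WFB) `= algebraMap (lam A B (P ^ k))` (WMP)
`= algebraMap (k lam A B P)` (WMU, induction; `lam A B 1 = 0` by WMU for `1 * 1`).  So
`ψ(trace y) = χ(P) ^ k`, `k = r / e`.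
Group the elements `x` by `(e, P)`: `P ∈ irr p e`, `e ∣ r`; by WRT every `P ∈ irr p e` has `e` elements
`x` (`Finset.sum_fiberwise_of_maps_to` or `Finset.card_eq_sum_card_fiberwise`; the sets `irr p e` for
different `e` are disjoint: WMN). -/
def WexStmt : Prop :=
  ∀ (p : ℕ) [Fact p.Prime] (K : Type) [Field K] [Fintype K] [Algebra (ZMod p) K] (r : ℕ)
    (A B : ZMod p), Module.finrank (ZMod p) K = r → 1 ≤ r → Sk p K A B = Sr p A B r

/-! ### Stepanov's method -/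

/-- the functions of row WCH on the weights `4 p ≤ w` -/
def IJ (p : ℕ) (I J : ℕ → ℕ) : Prop := ∀ w, 4 * p ≤ w → J w < p ∧ p * I w + 4 * J w = w

/-- **WCH** (uses nothing).
PROOF.  `J w := ((w : ZMod p) * 4⁻¹).val`; `4 J w = w` in `ZMod p` (`4 ≠ 0`), `4 J w ≤ 4 (p - 1) ≤ w`, so
`p ∣ w - 4 J w`, `I w := (w - 4 J w) / p`. -/
def WchStmt : Prop := ∀ p : ℕ, p.Prime → 5 ≤ p → ∃ I J : ℕ → ℕ, IJ p I J

/-- **WDB** (uses nothing).  The auxiliary polynomial is not zero and its degree.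
PROOF.  If `a w ≠ 0` the term `w` has the degree `natDegree (a w) + p ^ m I w + 4 p ^ (m-1) J w =
natDegree (a w) + p ^ (m-1) w` (`p ^ m = p p ^ (m-1)`; `IJ`), which is in
`[p ^ (m-1) w, p ^ (m-1) (w+1))`.  So different nonzero terms have different degrees:
`Polynomial.degree_sum_eq_of_disjoint`: the degree of the sum is the maximum of the degrees. -/
def WdbStmt : Prop :=
  ∀ (p m W : ℕ) (K : Type) [Field K] (g : K[X]) (I J : ℕ → ℕ) (a : ℕ → K[X]), p.Prime → 1 ≤ m →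
    IJ p I J → g.natDegree = 4 * p ^ (m - 1) →
    (∀ w, (a w).degree < ((p ^ (m - 1) : ℕ) : WithBot ℕ)) →
    (∃ w ∈ Finset.Icc (4 * p) W, a w ≠ 0) →
      (∑ w ∈ Finset.Icc (4 * p) W, a w * X ^ (p ^ m * I w) * g ^ J w) ≠ 0 ∧
      (∑ w ∈ Finset.Icc (4 * p) W, a w * X ^ (p ^ m * I w) * g ^ J w).natDegree <
        p ^ (m - 1) * (W + 1)

/-- **WLS** (uses nothing).  The linear system.
PROOF.  `Q = p ^ m = p Q'`, `Q' = p ^ (m-1)`, `W = Q + 12 p`.  Unknowns `β w t`, `w ∈ Icc (4 p) W`, `t < Q'`: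
`(Q + 8 p + 1) Q'` of them.  The linear map `β ↦ ∑_w ∑_t β w t X ^ (t Q + I w) (C c - g) ^ J w` has values
in the polynomials of degree `≤ D`: `t Q + I w + 4 Q' J w ≤ (Q' - 1) Q + (Q' + 12) + 4 Q' (p - 1) =: D`
(`p I w ≤ W = p (Q' + 12)`, `J w ≤ p - 1`), a space of dimension `D + 1`
(`Polynomial.degreeLT K (D + 1)`, `Polynomial.degreeLTEquiv`), and
`(Q + 8 p + 1) Q' - (D + 1) = 4 p Q' + 4 Q' + Q - 13 > 0` (`p ≥ 5`).  So it has a nonzero `β` in its kernel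
(`LinearMap.ker_ne_bot_of_finrank_lt`, or `LinearMap.exists_ne_zero..`).  The map `y ↦ y ^ (p ^ m)` of the
finite field `K` is bijective (injective: `iterateFrobenius`/`pow_char_pow` additive): choose `α w t`
with `α ^ (p ^ m) = β w t`, `a w := ∑_{t < Q'} C (α w t) X ^ t` (and `0` for `w` outside); then
`(a w) ^ (p ^ m) = ∑_t C (β w t) X ^ (t Q)` (`sum_pow_char_pow`). -/
def WlsStmt : Prop :=
  ∀ (p m : ℕ) (K : Type) [Field K] [Fintype K] [CharP K p] (g : K[X]) (c : K) (I J : ℕ → ℕ),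
    p.Prime → 5 ≤ p → 1 ≤ m → IJ p I J → g.natDegree ≤ 4 * p ^ (m - 1) →
      ∃ a : ℕ → K[X], (∀ w, (a w).degree < ((p ^ (m - 1) : ℕ) : WithBot ℕ)) ∧
        (∃ w ∈ Finset.Icc (4 * p) (p ^ m + 12 * p), a w ≠ 0) ∧
        (∑ w ∈ Finset.Icc (4 * p) (p ^ m + 12 * p),
          a w ^ (p ^ m) * X ^ I w * (C c - g) ^ J w) = 0

open Classical in
/-- **WPT** (uses WCH, WDB, WLS).  The upper bound for the number of points.
PROOF.  `Q = p ^ m`, `g := ∑_{i < m} f ^ (p ^ i)`, `natDegree g = 4 p ^ (m-1)` (the term `i = m - 1` has the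
largest degree).  `I, J` from WCH, `a` from WLS, `G := ∑_w a w X ^ (Q I w) g ^ J w`, `w ∈ Icc (4 p) (Q + 12 p)`:
`G ≠ 0`, `natDegree G < p ^ (m-1) (Q + 12 p + 1)` (WDB).  Let `∑_{i < 2m} (f.eval x) ^ (p ^ i) = c`.
Then `(g.eval x) ^ Q = ∑_{i < m} (f.eval x) ^ (p ^ (i + m)) = c - g.eval x` (`sum_pow_char_pow`,
`Finset.sum_range_add` / `Finset.range_add`), and `x ^ (Q ^ 2) = x` (`FiniteField.pow_card`).  So
`(G.eval x) ^ Q = ∑_w (a w).eval x ^ Q x ^ (Q ^ 2 I w) ((g.eval x) ^ Q) ^ J w =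
∑_w (a w).eval x ^ Q x ^ (I w) (c - g.eval x) ^ J w`, the value at `x` of the zero polynomial of WLS:
`G.eval x = 0`.  So the number of these `x` is at most the number of roots of `G`, `≤ natDegree G`
(`Polynomial.card_roots'`, `Multiset.toFinset_card_le`), and
`p p ^ (m-1) (Q + 12 p + 1) = Q ^ 2 + 12 p Q + Q ≤ Q ^ 2 + 13 p Q`. -/
def WptStmt : Prop :=
  ∀ (p m : ℕ) (K : Type) [Field K] [Fintype K] [CharP K p] (f : K[X]) (c : K), p.Prime → 5 ≤ p →
    1 ≤ m → Fintype.card K = (p ^ m) ^ 2 → f.natDegree = 4 →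
      p * ((Finset.univ : Finset K).filter
          (fun x => ∑ i ∈ Finset.range (2 * m), (f.eval x) ^ (p ^ i) = c)).card ≤
        (p ^ m) ^ 2 + 13 * p * p ^ m

/-- **WST** (uses WPT).  The bound for the sums over `K`, `r = 2 m`.
PROOF.  `q = Fintype.card K = p ^ (2 m) = Q ^ 2`, `Q = p ^ m` (`Module.card_eq_pow_finrank`, `ZMod.card`);
`CharP K p` (`charP_of_injective_algebraMap`).  `f := C (algebraMap A) * X ^ 4 + C (algebraMap B) * X`
has `natDegree = 4`.  For `c : ZMod p` let `N c` be the number of `x : K` with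
`trace (f x) = c`; `algebraMap (trace y) = ∑_{i < 2m} y ^ (p ^ i)`
(`FiniteField.algebraMap_trace_eq_sum_pow`), so `p N c ≤ q + 13 p Q` by WPT.  `∑_c N c = q`, so
`p N c = p q - p ∑_{c' ≠ c} N c' ≥ p q - (p - 1) (q + 13 p Q) ≥ q - 13 p ^ 2 Q`.  So
`|N c - q / p| ≤ 13 p Q` for all `c`.  `Sk = ∑_c N c ψ(c) = ∑_c (N c - q / p) ψ(c)` (`∑_c ψ(c) = 0`,
`AddChar.sum_eq_zero_of_ne_one` / `ZMod.isPrimitive_stdAddChar`), `‖ψ(c)‖ = 1`: `‖Sk‖ ≤ p 13 p Q`. -/
def WstStmt : Prop :=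
  ∀ (p : ℕ) [Fact p.Prime] (K : Type) [Field K] [Fintype K] [Algebra (ZMod p) K] (m : ℕ)
    (A B : ZMod p), 5 ≤ p → A ≠ 0 → 1 ≤ m → Module.finrank (ZMod p) K = 2 * m →
      ‖Sk p K A B‖ ≤ 13 * (p : ℝ) ^ 2 * (p : ℝ) ^ m

/-! ### the end of the proof -/

/-- **WNT** (uses nothing).  Newton's identities.
PROOF.  `ℂ` is algebraically closed: `X ^ 3 + a₁ X ^ 2 + a₂ X + a₃ = (X - ω₁)(X - ω₂)(X - ω₃)` (e.g.
`IsAlgClosed.exists_root` three times with division, or `IsAlgClosed.splits`), so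
`a₁ = -(ω₁+ω₂+ω₃)`, `a₂ = ω₁ω₂+ω₁ω₃+ω₂ω₃`, `a₃ = -ω₁ω₂ω₃`.  `n = 1, 2, 3`: `ring`.  `n ≥ 4`: strong
induction; `ω ^ n = -(a₁ ω ^ (n-1) + a₂ ω ^ (n-2) + a₃ ω ^ (n-3))` for each root. -/
def WntStmt : Prop :=
  ∀ (a₁ a₂ a₃ : ℂ) (S : ℕ → ℂ), S 1 = a₁ → S 2 = 2 * a₂ - S 1 * a₁ →
    S 3 = 3 * a₃ - S 1 * a₂ - S 2 * a₁ →
    (∀ n, 4 ≤ n → S n = -(S (n - 1) * a₁ + S (n - 2) * a₂ + S (n - 3) * a₃)) →
      ∃ ω₁ ω₂ ω₃ : ℂ, ∀ n, 1 ≤ n → S n = -(ω₁ ^ n + ω₂ ^ n + ω₃ ^ n)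

/-- **WPW** (uses nothing).  Power sums.
PROOF.  Let `m ≥ 1`, `y = z₁ ^ m`, `P j = z₁ ^ (jm) + z₂ ^ (jm) + z₃ ^ (jm)`, `j = 1, 2, 3`.
`y ^ 3 - e₁ y ^ 2 + e₂ y - e₃ = 0` with `e₁ = P 1`, `e₂ = (P 1 ^ 2 - P 2) / 2`,
`e₃ = (P 1 ^ 3 - 3 P 1 P 2 + 2 P 3) / 6` (`ring` in `z₁ ^ m, z₂ ^ m, z₃ ^ m`).  So with `u = ‖y‖ / R ^ m`:
`u ^ 3 ≤ C u ^ 2 + (C ^ 2 + C) / 2 u + (C ^ 3 + 3 C ^ 2 + 2 C) / 6`, hence `u ≤ 1 + M`, `M` = the sum of the
three coefficients (if `u ≥ 1` then `u ^ 3 ≤ M u ^ 2`).  So `(‖z₁‖ / R) ^ m ≤ 1 + M` for all `m ≥ 1`, which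
is impossible for `‖z₁‖ / R > 1` (`tendsto_pow_atTop_atTop_of_one_lt` or Bernoulli). -/
def WpwStmt : Prop :=
  ∀ (z₁ z₂ z₃ : ℂ) (R C : ℝ), 0 < R → 0 ≤ C →
    (∀ m : ℕ, 1 ≤ m → ‖z₁ ^ m + z₂ ^ m + z₃ ^ m‖ ≤ C * R ^ m) → ‖z₁‖ ≤ R

/-- **WFI** (uses WVA, WAO, WRL, WEX, WST, WNT, WPW).  Weil's bound.
PROOF.  `a_i := an i`, `S n := Sr n`.  WRL for `n = 1, 2, 3` with `a_0 = 1`: `S 1 = a_1`,
`S 2 = 2 a_2 - S 1 a_1`, `S 3 = 3 a_3 - S 1 a_2 - S 2 a_1`.  For `n ≥ 4`: `a_n = 0` (WVA) and in the sum of WRL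
only `r = n, n-1, n-2, n-3` remain: `0 = S n + S (n-1) a_1 + S (n-2) a_2 + S (n-3) a_3`.  WNT: `ω₁, ω₂, ω₃`.
For `m ≥ 1` take `K = GaloisField p (2 m)` (`GaloisField.finrank`, `Fintype.ofFinite`): WEX, WST:
`‖ω₁ ^ (2m) + ω₂ ^ (2m) + ω₃ ^ (2m)‖ ≤ 13 p ^ 2 p ^ m`.  WPW for `z_i = ω_i ^ 2`, `R = p`, `C = 13 p ^ 2` (three
times, permuting): `‖ω_i‖ ^ 2 ≤ p`.  So `‖a_1‖ = ‖S 1‖ ≤ 3 √p`; WAO. -/
def WfiStmt : Prop :=
  ∀ (p : ℕ) [Fact p.Prime] (A B : ZMod p), 5 ≤ p → A ≠ 0 →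
    ‖∑ x : ZMod p, ZMod.stdAddChar (A * x ^ 4 + B * x)‖ ≤ 3 * Real.sqrt p

/-- **WEI** (uses WFI).  Weil's bound for the complete sums `VM.Sc 4 p b m`.
PROOF.  `Finset.sum_range` and `ZMod.finEquiv` (or `Finset.sum_nbij'` with `ZMod.val`, `Nat.cast`;
`ZMod.natCast_zmod_val`, `ZMod.val_cast_of_lt`): the sum over `x ∈ range p` is the sum over
`x : ZMod p` with `x = ((x : ℕ) : ZMod p)`; `ZMod.stdAddChar ((j : ℤ) : ZMod p) = exp (2 π i j / p)`
(`ZMod.stdAddChar_coe`) is `ee (j / p)`. -/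
def WeilStmt : Prop :=
  ∀ (p : ℕ) (b m : ℤ), p.Prime → 5 ≤ p → ¬ (p : ℤ) ∣ b →
    ‖Pool.Agent.VM.Sc 4 p b m‖ ≤ 3 * Real.sqrt p

end Pool.Agent.K4W
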